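import Pool.Agent.Work.MP_c71557_gt.F.FinA
import Pool.Agent.Work.MP_c71557_gt.H.Base

set_option autoImplicit false
set_option linter.unusedVariables false

/-!
# MP_c71557_gt, module F/Fin: no surjection onto `ℝ` (S-M)

PROOF.  Let `f : groupHomology (trivial ℤ K ℤ) 3 → ℝ` be additive and surjective, `c` as in `fin_chain`.
Every element is `π z` for a cycle `z` (`groupHomology_induction_on`, `groupHomology.cyclesMk`, `iCycles`;
`inhomogeneousChains.d_def`).  For two chains `x, x'` with `d x = d x' = 0` (as elements of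
`(Fin 3 → K) →₀ ℤ`): if `c 3 x`, `c 3 x'` have the same class in `HC (sg K).Obj 3` then `f` takes the same value:
`c 3 (x - x') = d y`, `N • y = c 4 w`, so `c 3 (N (x - x')) = d (c 4 w) = c 3 (d w)` and `N (x - x') = d w`
(injectivity), so `N • (π x - π x') = 0` in the group homology and `N • (f (π x) - f (π x')) = 0`, hence equality
(`ℝ` is torsion free).  So `f (π x)` depends only on the class of `c 3 x` in the countable set
`HC (sg K).Obj 3`: the range of `f` is countable (it is the image of a subset of a countable set), but it is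
`Set.univ : Set ℝ`, which is not countable (`Cardinal.not_countable_real`).
Boundaries: `π (x)` for a boundary `x = d w` is zero: `HomologicalComplex.homology` API
(`toCycles_comp_homologyπ`), or `groupHomology.π` and exactness.
-/

namespace C715

open CategoryTheory ActCat

theorem fin_end {Γ : Type} [Group Γ] (K : Subgroup Γ) (h : Countable (HC (sg K).Obj 3)) :
    ¬ (∃ f : (groupHomology (Rep.trivial ℤ K ℤ) 3) →+ ℝ, Function.Surjective f) := by
  rintro ⟨f, hf⟩
  obtain ⟨c, hc1, hc2, hc3⟩ := fin_chain K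
  have hinj : Function.Injective (groupHomology.iCycles (Rep.trivial ℤ K ℤ) 3).hom :=
    (ModuleCat.mono_iff_injective (groupHomology.iCycles (Rep.trivial ℤ K ℤ) 3)).1 inferInstance
  have hdi : ∀ z : groupHomology.cycles (Rep.trivial ℤ K ℤ) 3,
      (groupHomology.inhomogeneousChains.d (Rep.trivial ℤ K ℤ) 2).hom
        ((groupHomology.iCycles (Rep.trivial ℤ K ℤ) 3).hom z) = 0 := by
    intro z
    have h1 := (groupHomology.inhomogeneousChains (Rep.trivial ℤ K ℤ)).iCycles_d 3 2
    have h2 := congrArg (fun g => g.hom z) h1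
    rw [groupHomology.inhomogeneousChains.d_def] at h2
    exact h2
  have htc : ∀ w : (Fin 4 → K) →₀ (Rep.trivial ℤ K ℤ),
      (groupHomology.iCycles (Rep.trivial ℤ K ℤ) 3).hom
        ((groupHomology.toCycles (Rep.trivial ℤ K ℤ) 4 3).hom w) =
        (groupHomology.inhomogeneousChains.d (Rep.trivial ℤ K ℤ) 3).hom w := by
    intro w
    have h1 := (groupHomology.inhomogeneousChains (Rep.trivial ℤ K ℤ)).toCycles_i 4 3
    have h2 := congrArg (fun g => g.hom w) h1
    rw [groupHomology.inhomogeneousChains.d_def] at h2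
    exact h2
  have hπ0 : ∀ w : (Fin 4 → K) →₀ (Rep.trivial ℤ K ℤ),
      (groupHomology.π (Rep.trivial ℤ K ℤ) 3).hom
        ((groupHomology.toCycles (Rep.trivial ℤ K ℤ) 4 3).hom w) = 0 := by
    intro w
    have h1 := (groupHomology.inhomogeneousChains (Rep.trivial ℤ K ℤ)).toCycles_comp_homologyπ 4 3
    have h2 := congrArg (fun g => g.hom w) h1
    exact h2
  have hcyc : ∀ z : groupHomology.cycles (Rep.trivial ℤ K ℤ) 3,
      c 3 ((groupHomology.iCycles (Rep.trivial ℤ K ℤ) 3).hom z) ∈ (NC (sg K).Obj).Z 3 := by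
    intro z
    show (NC (sg K).Obj).d 2 _ = 0
    rw [← hc1, hdi, map_zero]
  obtain ⟨F, hF⟩ : ∃ F : groupHomology.cycles (Rep.trivial ℤ K ℤ) 3 → HC (sg K).Obj 3,
      ∀ z, F z = (NC (sg K).Obj).cls 3 _ (hcyc z) := ⟨_, fun _ => rfl⟩
  have key : ∀ z z' : groupHomology.cycles (Rep.trivial ℤ K ℤ) 3, F z = F z' →
      f ((groupHomology.π (Rep.trivial ℤ K ℤ) 3).hom z) =
        f ((groupHomology.π (Rep.trivial ℤ K ℤ) 3).hom z') := by
    intro z z' hzz
    rw [hF, hF] at hzz
    have h1 := (Submodule.Quotient.eq _).1 hzz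
    obtain ⟨y, hy⟩ : ∃ y, (NC (sg K).Obj).d 3 y =
        c 3 ((groupHomology.iCycles (Rep.trivial ℤ K ℤ) 3).hom z) -
          c 3 ((groupHomology.iCycles (Rep.trivial ℤ K ℤ) 3).hom z') := h1
    obtain ⟨N, w, hN, hw⟩ := hc3 4 y
    have h2 : c 3 (N • (groupHomology.iCycles (Rep.trivial ℤ K ℤ) 3).hom (z - z')) =
        c 3 ((groupHomology.inhomogeneousChains.d (Rep.trivial ℤ K ℤ) 3).hom w) := by
      rw [hc1, ← hw, LinearMap.map_smul ((NC (sg K).Obj).d 3), hy, map_nsmul, map_sub, map_sub,
        ← Nat.cast_smul_eq_nsmul ℚ]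
    have h3 := hc2 3 h2
    have h4 : N • (z - z') = (groupHomology.toCycles (Rep.trivial ℤ K ℤ) 4 3).hom w := by
      apply hinj
      rw [map_nsmul, htc]
      exact h3
    have h5 : N • ((groupHomology.π (Rep.trivial ℤ K ℤ) 3).hom (z - z')) = 0 := by
      rw [← map_nsmul, h4, hπ0]
    have h6 : (N : ℝ) * f ((groupHomology.π (Rep.trivial ℤ K ℤ) 3).hom (z - z')) = 0 := by
      rw [← nsmul_eq_mul, ← map_nsmul, h5, map_zero]
    have hN0 : (N : ℝ) ≠ 0 := by
      have : 0 < N := hN
      exact_mod_cast this.ne'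
    have h7 := (mul_eq_zero.1 h6).resolve_left hN0
    rw [map_sub, map_sub] at h7
    exact sub_eq_zero.1 h7
  classical
  obtain ⟨g, hg⟩ : ∃ g : HC (sg K).Obj 3 → ℝ, ∀ x : ℝ, ∃ y, g y = x := by
    refine ⟨fun y => if hy : ∃ z, F z = y then
      f ((groupHomology.π (Rep.trivial ℤ K ℤ) 3).hom hy.choose) else 0, ?_⟩
    intro x
    obtain ⟨v, rfl⟩ := hf x
    induction v using groupHomology_induction_on with
    | h z =>
      refine ⟨F z, ?_⟩
      have hy : ∃ z', F z' = F z := ⟨z, rfl⟩
      show (if hy : ∃ z', F z' = F z then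
        f ((groupHomology.π (Rep.trivial ℤ K ℤ) 3).hom hy.choose) else 0) = _
      rw [dif_pos hy]
      exact key _ _ hy.choose_spec
  have hcount : Countable ℝ := Function.Surjective.countable (f := g) hg
  exact not_countable hcount

end C715
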