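import Pool.Agent.Work.MP_c71557_gt.P.Inv

set_option autoImplicit false
set_option linter.unusedVariables false

/-!
# MP_c71557_gt, module F/Frz: the group of the problem is `Gc` (M-L)

`≤`: let `σ` be a generator, `A s` its affine map on `convexHull s`, `s ∈ P`.  The two components of `σ` are continuous
and at every point equal to a component of some `A s`, `s ∈ P`, or of the identity: `IsPL σ` (write an affine map as
two `L3`s).  The hulls are compact, so `σ = id` off a ball; `Gc_of`.  (Or the second part of the definition gives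
`Continuous σ.symm`, `PLH_of`.)
`≥`: every `g ∈ Gc` is in the set.  Let `S` be a finite set of affine functions from which both components of `g`
select, `R > 0` with `g = id` for `‖x‖ ≥ R`, `D` the finite set consisting of all differences `l - l'`
(`l, l' ∈ S`) and of the four functions `R ± x.1`, `R ± x.2`.  For a sign function `τ : D → SignType` with
nonnegative values on the last four let
`C τ = {x | ∀ d ∈ D, (τ d = 1 → 0 ≤ d x) ∧ (τ d = -1 → d x ≤ 0) ∧ (τ d = 0 → d x = 0)}` and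
`O τ = {x | ∀ d ∈ D, sign (d x) = τ d}`; finitely many `τ`; every `x` with `‖x‖ ≤ R` is in `O τ` for its own signs.
If `O τ` is nonempty: (1) `C τ` is compact and convex, `O τ` is convex and dense in `C τ` (`(1-t) x + t x0`, `x0 ∈ O τ`,
`0 < t ≤ 1`); (2) on the preconnected set `O τ` each component `φ` of `g` equals one `l ∈ S`: for `l, l' ∈ S` the sign of
`l - l'` is constant on `O τ`, so the relatively closed sets `{φ = l}` are pairwise equal or disjoint, finitely many,
and cover `O τ`; by density `φ = l` on `C τ`; (3) `C τ` is the convex hull of a finite set: its extreme points are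
finitely many, because an extreme point `x` is determined by `{d ∈ D | d x = 0}`: if `x ≠ y` are in `C τ` with the
same set of vanishing `d`'s then `x ± ε (y - x) ∈ C τ` for small `ε > 0`, so `x` is not extreme; Krein-Milman
(`closure_convexHull_extremePoints`), and the convex hull of a finite set is compact, hence closed
(`Set.Finite.isCompact_convexHull`).  So `P` = the set of these finite sets of extreme points (for the `τ` with
`O τ` nonempty) works: outside the union of the hulls `‖x‖ > R` and `g x = x`.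
-/

namespace C715

private theorem aff_L3 (A : (ℝ × ℝ) →ᵃ[ℝ] (ℝ × ℝ)) : ∃ m n : L3, ∀ x, A x = (m.ev x, n.ev x) := by
  refine ⟨⟨(A.linear (1, 0)).1, (A.linear (0, 1)).1, (A 0).1⟩,
    ⟨(A.linear (1, 0)).2, (A.linear (0, 1)).2, (A 0).2⟩, fun x => ?_⟩
  have h1 : A x = A.linear x + A 0 := by
    have := A.map_vadd 0 x
    simpa using this
  have h2 : x = x.1 • ((1 : ℝ), (0 : ℝ)) + x.2 • ((0 : ℝ), (1 : ℝ)) := by
    ext <;> simp
  have h3 : A.linear x = x.1 • A.linear (1, 0) + x.2 • A.linear (0, 1) := by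
    conv_lhs => rw [h2]
    rw [map_add, map_smul, map_smul]
  rw [h1, h3]
  ext
  · simp only [L3.ev, Prod.fst_add, Prod.smul_fst, smul_eq_mul]
    ring
  · simp only [L3.ev, Prod.snd_add, Prod.smul_snd, smul_eq_mul]
    ring

private theorem L3_aff (m n : L3) :
    ∃ A : (ℝ × ℝ) →ᵃ[ℝ] (ℝ × ℝ), ∀ x, A x = (m.ev x, n.ev x) := by
  refine ⟨⟨fun x => (m.ev x, n.ev x),
    LinearMap.prod (m.a • LinearMap.fst ℝ ℝ ℝ + m.b • LinearMap.snd ℝ ℝ ℝ)
      (n.a • LinearMap.fst ℝ ℝ ℝ + n.b • LinearMap.snd ℝ ℝ ℝ), fun p v => ?_⟩, fun x => rfl⟩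
  ext
  · simp [L3.ev]
    ring
  · simp [L3.ev]
    ring

private theorem ev_cont (l : L3) : Continuous l.ev := by
  unfold L3.ev
  fun_prop

private theorem ev_comb (l : L3) (x y : P2) (s t : ℝ) (h : s + t = 1) :
    l.ev (s • x + t • y) = s * l.ev x + t * l.ev y := by
  simp only [L3.ev, Prod.fst_add, Prod.snd_add, Prod.smul_fst, Prod.smul_snd, smul_eq_mul]
  have : l.c = (s + t) * l.c := by rw [h, one_mul]
  linear_combination this

/-- the closed cell of `x0` -/
private def Cc (D : Finset L3) (x0 : P2) : Set P2 :=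
  {x | ∀ d ∈ D, (0 < d.ev x0 → 0 ≤ d.ev x) ∧ (d.ev x0 < 0 → d.ev x ≤ 0) ∧
    (d.ev x0 = 0 → d.ev x = 0)}

/-- the open cell of `x0` -/
private def Oc (D : Finset L3) (x0 : P2) : Set P2 :=
  {x | ∀ d ∈ D, (0 < d.ev x0 → 0 < d.ev x) ∧ (d.ev x0 < 0 → d.ev x < 0) ∧
    (d.ev x0 = 0 → d.ev x = 0)}

private theorem mem_Cc (D : Finset L3) (x0 : P2) : x0 ∈ Cc D x0 :=
  fun _ _ => ⟨fun h => h.le, fun h => h.le, fun h => h⟩

private theorem mem_Oc (D : Finset L3) (x0 : P2) : x0 ∈ Oc D x0 :=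
  fun _ _ => ⟨fun h => h, fun h => h, fun h => h⟩

private theorem Cc_convex (D : Finset L3) (x0 : P2) : Convex ℝ (Cc D x0) := by
  intro x hx y hy s t hs ht hst d hd
  rw [ev_comb d x y s t hst]
  obtain ⟨h1, h2, h3⟩ := hx d hd
  obtain ⟨g1, g2, g3⟩ := hy d hd
  refine ⟨fun h => ?_, fun h => ?_, fun h => ?_⟩
  · have := h1 h
    have := g1 h
    positivity
  · have := h2 h
    have := g2 h
    nlinarith
  · rw [h3 h, g3 h]
    ring

private theorem Oc_convex (D : Finset L3) (x0 : P2) : Convex ℝ (Oc D x0) := by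
  intro x hx y hy s t hs ht hst d hd
  rw [ev_comb d x y s t hst]
  obtain ⟨h1, h2, h3⟩ := hx d hd
  obtain ⟨g1, g2, g3⟩ := hy d hd
  refine ⟨fun h => ?_, fun h => ?_, fun h => ?_⟩
  · have a1 := h1 h
    have a2 := g1 h
    rcases hs.lt_or_eq with h0 | h0
    · have := mul_pos h0 a1
      have := mul_nonneg ht a2.le
      linarith
    · have h4 : t = 1 := by linarith
      rw [← h0, h4]
      linarith
  · have a1 := h2 h
    have a2 := g2 h
    rcases hs.lt_or_eq with h0 | h0
    · have := mul_neg_of_pos_of_neg h0 a1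
      have := mul_nonpos_of_nonneg_of_nonpos ht a2.le
      linarith
    · have h4 : t = 1 := by linarith
      rw [← h0, h4]
      linarith
  · rw [h3 h, g3 h]
    ring

private theorem Cc_closed (D : Finset L3) (x0 : P2) : IsClosed (Cc D x0) := by
  have h : Cc D x0 = ⋂ d ∈ D, ({x | 0 < d.ev x0 → 0 ≤ d.ev x} ∩ ({x | d.ev x0 < 0 → d.ev x ≤ 0} ∩
      {x | d.ev x0 = 0 → d.ev x = 0})) := by
    ext x
    simp only [Cc, Set.mem_ofPred_eq, Set.mem_iInter, Set.mem_inter_iff]
  rw [h]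
  refine isClosed_biInter fun d _ => ?_
  refine IsClosed.inter ?_ (IsClosed.inter ?_ ?_)
  · by_cases h0 : 0 < d.ev x0
    · simp only [h0, forall_const]
      exact isClosed_le continuous_const (ev_cont d)
    · simp only [h0, IsEmpty.forall_iff, Set.ofPred_true, isClosed_univ]
  · by_cases h0 : d.ev x0 < 0
    · simp only [h0, forall_const]
      exact isClosed_le (ev_cont d) continuous_const
    · simp only [h0, IsEmpty.forall_iff, Set.ofPred_true, isClosed_univ]
  · by_cases h0 : d.ev x0 = 0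
    · simp only [h0, forall_const]
      exact isClosed_eq (ev_cont d) continuous_const
    · simp only [h0, IsEmpty.forall_iff, Set.ofPred_true, isClosed_univ]

private theorem Cc_sub_closure (D : Finset L3) (x0 : P2) : Cc D x0 ⊆ closure (Oc D x0) := by
  intro x hx
  have hc : Filter.Tendsto (fun t : ℝ => (1 - t) • x + t • x0) (nhdsWithin 0 (Set.Ioi 0))
      (nhds x) := by
    have : Continuous (fun t : ℝ => (1 - t) • x + t • x0) := by fun_prop
    have h3 := this.tendsto 0
    simp only [sub_zero, one_smul, zero_smul, add_zero] at h3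
    exact h3.mono_left nhdsWithin_le_nhds
  refine mem_closure_of_tendsto hc ?_
  have h1 : ∀ᶠ t in nhdsWithin (0 : ℝ) (Set.Ioi 0), t ∈ Set.Ioo (0 : ℝ) 1 :=
    Ioo_mem_nhdsGT one_pos
  filter_upwards [h1] with t ht
  intro d hd
  rw [ev_comb d x x0 _ _ (by ring)]
  obtain ⟨h2, h3, h4⟩ := hx d hd
  obtain ⟨t0, t1⟩ := ht
  refine ⟨fun h => ?_, fun h => ?_, fun h => ?_⟩
  · have := mul_nonneg (sub_nonneg.2 t1.le) (h2 h)
    have := mul_pos t0 h
    linarith
  · have := mul_nonpos_of_nonneg_of_nonpos (sub_nonneg.2 t1.le) (h3 h)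
    have := mul_neg_of_pos_of_neg t0 h
    linarith
  · rw [h4 h, h]
    ring

/-- on a closed cell a selection is one affine function -/
private theorem sel (D : Finset L3) (S : Finset L3)
    (hD : ∀ l ∈ S, ∀ l' ∈ S, (⟨l.a - l'.a, l.b - l'.b, l.c - l'.c⟩ : L3) ∈ D)
    (φ : P2 → ℝ) (hφ : Continuous φ) (h : ∀ x, ∃ l ∈ S, φ x = l.ev x) (x0 : P2) :
    ∃ l : L3, ∀ x ∈ Cc D x0, φ x = l.ev x := by
  obtain ⟨l0, hl0, e0⟩ := h x0
  refine ⟨l0, ?_⟩
  have hdiff : ∀ (l l' : L3) (x : P2),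
      (⟨l.a - l'.a, l.b - l'.b, l.c - l'.c⟩ : L3).ev x = l.ev x - l'.ev x := by
    intro l l' x
    simp only [L3.ev]
    ring
  have hO : Oc D x0 ⊆ {x | φ x = l0.ev x} := by
    have hpc := (Oc_convex D x0).isPreconnected
    rw [isPreconnected_closed_iff] at hpc
    have hT : IsClosed (⋃ l ∈ {l ∈ (S : Set L3) | l.ev x0 ≠ l0.ev x0}, {x | φ x = l.ev x}) := by
      refine Set.Finite.isClosed_biUnion (S.finite_toSet.subset fun l hl => hl.1) fun l _ => ?_
      exact isClosed_eq hφ (ev_cont l)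
    have h1 := hpc {x | φ x = l0.ev x}
      (⋃ l ∈ {l ∈ (S : Set L3) | l.ev x0 ≠ l0.ev x0}, {x | φ x = l.ev x})
      (isClosed_eq hφ (ev_cont l0)) hT (fun y hy => ?_) ⟨x0, mem_Oc D x0, e0⟩
    · intro y hy
      by_contra hne
      obtain ⟨l, hl, e⟩ := h y
      by_cases hll : l.ev x0 = l0.ev x0
      · apply hne
        have h2 := (hy _ (hD l hl l0 hl0)).2.2 (by rw [hdiff, hll, sub_self])
        rw [hdiff, sub_eq_zero] at h2
        exact e.trans h2
      · obtain ⟨z, hz, hz1, hz2⟩ := h1 ⟨y, hy, Set.mem_biUnion (show l ∈ {l ∈ (S : Set L3) |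
          l.ev x0 ≠ l0.ev x0} from ⟨hl, hll⟩) e⟩
        obtain ⟨l', hl', e'⟩ := Set.mem_iUnion₂.1 hz2
        have e1 : φ z = l0.ev z := hz1
        have e2 : φ z = l'.ev z := e'
        have h3 := hz _ (hD l' hl'.1 l0 hl0)
        rw [hdiff, hdiff] at h3
        have h4 : l'.ev z - l0.ev z = 0 := by rw [← e1, ← e2, sub_self]
        rcases lt_trichotomy (l'.ev x0 - l0.ev x0) 0 with h5 | h5 | h5
        · exact (h3.2.1 h5).ne h4
        · exact hl'.2 (sub_eq_zero.1 h5)
        · exact (h3.1 h5).ne' h4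
    · obtain ⟨l, hl, e⟩ := h y
      by_cases hll : l.ev x0 = l0.ev x0
      · left
        have h2 := (hy _ (hD l hl l0 hl0)).2.2 (by rw [hdiff, hll, sub_self])
        rw [hdiff, sub_eq_zero] at h2
        exact e.trans h2
      · right
        exact Set.mem_biUnion (show l ∈ {l ∈ (S : Set L3) | l.ev x0 ≠ l0.ev x0} from ⟨hl, hll⟩) e
  intro x hx
  exact closure_minimal hO (isClosed_eq hφ (ev_cont l0)) (Cc_sub_closure D x0 hx)

private theorem ext_fin (D : Finset L3) (x0 : P2) : ((Cc D x0).extremePoints ℝ).Finite := by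
  classical
  refine Set.Finite.of_injOn (f := fun x => D.filter fun d => d.ev x = 0)
    (t := (D.powerset : Set (Finset L3))) (fun x _ => ?_) ?_ (Finset.finite_toSet _)
  · exact Finset.mem_coe.2 (Finset.mem_powerset.2 (Finset.filter_subset _ _))
  · intro x hx y hy hxy
    by_contra hne
    have hz : ∀ d ∈ D, (d.ev x = 0 ↔ d.ev y = 0) := by
      intro d hd
      have := congrArg (fun s : Finset L3 => d ∈ s) hxy
      simpa [hd] using this
    have hε : ∀ᶠ ε in nhdsWithin (0 : ℝ) (Set.Ioi 0), ∀ d ∈ D, d.ev x ≠ 0 →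
        ε * |d.ev y - d.ev x| ≤ |d.ev x| := by
      rw [Filter.eventually_all_finset]
      intro d hd
      by_cases h0 : d.ev x = 0
      · exact Filter.Eventually.of_forall fun _ h => absurd h0 h
      · have h1 : Filter.Tendsto (fun ε : ℝ => ε * |d.ev y - d.ev x|)
            (nhdsWithin 0 (Set.Ioi 0)) (nhds 0) := by
          have : Continuous (fun ε : ℝ => ε * |d.ev y - d.ev x|) := by fun_prop
          have h3 := this.tendsto 0
          simp only [zero_mul] at h3
          exact h3.mono_left nhdsWithin_le_nhds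
        filter_upwards [h1.eventually (Iio_mem_nhds (abs_pos.2 h0))] with ε hε _
        exact (show ε * |d.ev y - d.ev x| < |d.ev x| from hε).le
    obtain ⟨ε, hε, hε0⟩ := (hε.and self_mem_nhdsWithin).exists
    have hε0' : (0 : ℝ) < ε := hε0
    have key : ∀ s : ℝ, |s| = ε → (1 - s) • x + s • y ∈ Cc D x0 := by
      intro s hs d hd
      rw [ev_comb d x y _ _ (by ring)]
      obtain ⟨h1, h2, h3⟩ := hx.1 d hd
      have e : (1 - s) * d.ev x + s * d.ev y = d.ev x + s * (d.ev y - d.ev x) := by ring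
      rw [e]
      by_cases h0 : d.ev x = 0
      · rw [h0, (hz d hd).1 h0]
        simp
      · have h4 : |s * (d.ev y - d.ev x)| ≤ |d.ev x| := by
          rw [abs_mul, hs]
          exact hε d hd h0
        rw [abs_le] at h4
        refine ⟨fun h => ?_, fun h => ?_, fun h => absurd (h3 h) h0⟩
        · rw [abs_of_nonneg (h1 h)] at h4
          linarith [h4.1]
        · rw [abs_of_nonpos (h2 h)] at h4
          linarith [h4.2]
    have h1 := key ε (abs_of_pos hε0')
    have h2 := key (-ε) (by rw [abs_neg, abs_of_pos hε0'])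
    have h3 : x ∈ openSegment ℝ ((1 - ε) • x + ε • y) ((1 - -ε) • x + (-ε) • y) := by
      refine ⟨1 / 2, 1 / 2, by norm_num, by norm_num, by norm_num, ?_⟩
      module
    have h4 := hx.2 h1 h2 h3
    have h5 : ε • (y - x) = 0 := by
      have : ε • (y - x) = ((1 - ε) • x + ε • y) - x := by module
      rw [this]
      rw [h4, sub_self]
    rcases smul_eq_zero.1 h5 with h6 | h6
    · exact hε0'.ne' h6
    · exact hne (sub_eq_zero.1 h6).symm

private theorem finset_bdd (P : Finset (Finset (ℝ × ℝ))) : ∃ R : ℝ,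
    ∀ x ∈ ⋃ s ∈ P, convexHull ℝ (↑s : Set (ℝ × ℝ)), ‖x‖ < R := by
  have h : IsCompact (⋃ s ∈ P, convexHull ℝ (↑s : Set (ℝ × ℝ))) :=
    P.isCompact_biUnion fun s _ => s.finite_toSet.isCompact_convexHull ℝ
  obtain ⟨R, hR⟩ := h.isBounded.subset_ball (0 : ℝ × ℝ)
  exact ⟨R, fun x hx => by simpa using hR hx⟩

theorem frz : Subgroup.closure {σ : Equiv.Perm (ℝ × ℝ) |
          Continuous ⇑σ ∧ Continuous ⇑σ.symm ∧
          ∃ P : Finset (Finset (ℝ × ℝ)),
            (∀ x : ℝ × ℝ, x ∉ (⋃ s ∈ P, convexHull ℝ (↑s : Set (ℝ × ℝ))) → σ x = x) ∧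
            ∀ s ∈ P, ∃ A : (ℝ × ℝ) →ᵃ[ℝ] (ℝ × ℝ),
              ∀ x ∈ convexHull ℝ (↑s : Set (ℝ × ℝ)), σ x = A x} = Gc := by
  classical
  apply le_antisymm
  · rw [Subgroup.closure_le]
    rintro σ ⟨hc, hc', P, hout, hin⟩
    obtain ⟨R, hR⟩ := finset_bdd P
    choose! A hA using hin
    choose m n hmn using aff_L3
    have hx : ∀ x, ∃ t : L3 × L3, t ∈ insert ((⟨1, 0, 0⟩ : L3), (⟨0, 1, 0⟩ : L3))
        (P.image fun s => (m (A s), n (A s))) ∧ σ x = (t.1.ev x, t.2.ev x) := by
      intro x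
      by_cases h : x ∈ ⋃ s ∈ P, convexHull ℝ (↑s : Set (ℝ × ℝ))
      · obtain ⟨s, hs, hxs⟩ := Set.mem_iUnion₂.1 h
        exact ⟨_, Finset.mem_insert_of_mem (Finset.mem_image_of_mem _ hs),
          (hA s hs x hxs).trans (hmn (A s) x)⟩
      · refine ⟨_, Finset.mem_insert_self _ _, ?_⟩
        rw [hout x h]
        simp [L3.ev]
    refine Gc_of σ ⟨⟨continuous_fst.comp hc, _, (Finset.finite_toSet (Finset.image Prod.fst
      (insert ((⟨1, 0, 0⟩ : L3), (⟨0, 1, 0⟩ : L3)) (P.image fun s => (m (A s), n (A s)))))),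
      fun x => ?_⟩, ⟨continuous_snd.comp hc, _, (Finset.finite_toSet (Finset.image Prod.snd
      (insert ((⟨1, 0, 0⟩ : L3), (⟨0, 1, 0⟩ : L3)) (P.image fun s => (m (A s), n (A s)))))),
      fun x => ?_⟩⟩ R fun x hx => hout x fun h => ?_
    · obtain ⟨t, ht, e⟩ := hx x
      exact ⟨t.1, Finset.mem_coe.2 (Finset.mem_image_of_mem _ ht), congrArg Prod.fst e⟩
    · obtain ⟨t, ht, e⟩ := hx x
      exact ⟨t.2, Finset.mem_coe.2 (Finset.mem_image_of_mem _ ht), congrArg Prod.snd e⟩
    · exact absurd hx (not_le.2 (hR x h))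
  · intro g hg
    apply Subgroup.subset_closure
    obtain ⟨⟨h1, h2⟩, R, hR⟩ := hg
    refine ⟨h1.cont, h2.cont, ?_⟩
    obtain ⟨⟨c1, S1, hS1, s1⟩, ⟨c2, S2, hS2, s2⟩⟩ := h1
    set S : Finset L3 := hS1.toFinset ∪ hS2.toFinset with hS
    set D : Finset L3 := ((S ×ˢ S).image fun t : L3 × L3 =>
        (⟨t.1.a - t.2.a, t.1.b - t.2.b, t.1.c - t.2.c⟩ : L3)) ∪
      {⟨-1, 0, R⟩, ⟨1, 0, R⟩, ⟨0, -1, R⟩, ⟨0, 1, R⟩} with hD
    have hDS : ∀ l ∈ S, ∀ l' ∈ S, (⟨l.a - l'.a, l.b - l'.b, l.c - l'.c⟩ : L3) ∈ D := by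
      intro l hl l' hl'
      exact Finset.mem_union_left _ (Finset.mem_image.2 ⟨(l, l'), Finset.mk_mem_product hl hl', rfl⟩)
    have hB : ∀ x0 : P2, ‖x0‖ ≤ R → ∀ x ∈ Cc D x0, ‖x‖ ≤ R := by
      intro x0 hx0 x hx
      rw [Prod.norm_def, max_le_iff, Real.norm_eq_abs, Real.norm_eq_abs, abs_le, abs_le] at hx0
      have hgen : ∀ d ∈ D, 0 ≤ d.ev x0 → 0 ≤ d.ev x := by
        intro d hd h0
        rcases h0.lt_or_eq with h0 | h0
        · exact (hx d hd).1 h0
        · exact ((hx d hd).2.2 h0.symm).ge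
      have a1 := hgen ⟨-1, 0, R⟩ (by simp [hD]) (by simp [L3.ev]; linarith)
      have a2 := hgen ⟨1, 0, R⟩ (by simp [hD]) (by simp [L3.ev]; linarith)
      have a3 := hgen ⟨0, -1, R⟩ (by simp [hD]) (by simp [L3.ev]; linarith)
      have a4 := hgen ⟨0, 1, R⟩ (by simp [hD]) (by simp [L3.ev]; linarith)
      simp only [L3.ev] at a1 a2 a3 a4
      rw [Prod.norm_def, max_le_iff, Real.norm_eq_abs, Real.norm_eq_abs, abs_le, abs_le]
      refine ⟨⟨?_, ?_⟩, ?_, ?_⟩ <;> linarith
    have hhull : ∀ x0 : P2, ‖x0‖ ≤ R → convexHull ℝ ((Cc D x0).extremePoints ℝ) = Cc D x0 := by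
      intro x0 hx0
      have hcomp : IsCompact (Cc D x0) := by
        refine (isCompact_closedBall (0 : P2) R).of_isClosed_subset (Cc_closed D x0) ?_
        intro x hx
        simpa using hB x0 hx0 x hx
      have e := closure_convexHull_extremePoints hcomp (Cc_convex D x0)
      rwa [((ext_fin D x0).isCompact_convexHull ℝ).isClosed.closure_eq] at e
    -- the finite set of cells
    let C' : (D → SignType) → Set P2 := fun τ => {x | ∀ d : D, (τ d = 1 → 0 ≤ d.1.ev x) ∧
      (τ d = -1 → d.1.ev x ≤ 0) ∧ (τ d = 0 → d.1.ev x = 0)}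
    have hC' : ∀ x0, Cc D x0 = C' (fun d => SignType.sign (d.1.ev x0)) := by
      intro x0
      ext x
      constructor
      · intro hx d
        obtain ⟨g1, g2, g3⟩ := hx d.1 d.2
        exact ⟨fun h => g1 (sign_eq_one_iff.1 h), fun h => g2 (sign_eq_neg_one_iff.1 h),
          fun h => g3 (sign_eq_zero_iff.1 h)⟩
      · intro hx d hd
        obtain ⟨g1, g2, g3⟩ := hx ⟨d, hd⟩
        exact ⟨fun h => g1 (sign_eq_one_iff.2 h), fun h => g2 (sign_eq_neg_one_iff.2 h),
          fun h => g3 (sign_eq_zero_iff.2 h)⟩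
    let T : Set (Finset (ℝ × ℝ)) :=
      {s | ∃ x0 : P2, ‖x0‖ ≤ R ∧ (↑s : Set P2) = (Cc D x0).extremePoints ℝ}
    have hT : T.Finite := by
      refine (Set.finite_range fun τ : D → SignType =>
        if h : ((C' τ).extremePoints ℝ).Finite then h.toFinset else ∅).subset ?_
      rintro s ⟨x0, hx0, hs⟩
      refine ⟨fun d => SignType.sign (d.1.ev x0), ?_⟩
      have h3 : ((C' (fun d => SignType.sign (d.1.ev x0))).extremePoints ℝ).Finite := by
        rw [← hC']
        exact ext_fin D x0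
      simp only [dif_pos h3]
      apply Finset.coe_injective
      rw [Set.Finite.coe_toFinset, hs, hC' x0]
    refine ⟨hT.toFinset, fun x hx => ?_, fun s hs => ?_⟩
    · apply hR
      by_contra hlt
      rw [not_le] at hlt
      apply hx
      refine Set.mem_biUnion (x := (ext_fin D x).toFinset) ?_ ?_
      · exact hT.mem_toFinset.2 ⟨x, hlt.le, by rw [Set.Finite.coe_toFinset]⟩
      · rw [Set.Finite.coe_toFinset, hhull x hlt.le]
        exact mem_Cc D x
    · obtain ⟨x0, hx0, hs⟩ := hT.mem_toFinset.1 hs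
      obtain ⟨m, hm⟩ := sel D S hDS _ c1 (fun x => by
        obtain ⟨l, hl, e⟩ := s1 x
        exact ⟨l, Finset.mem_union_left _ (hS1.mem_toFinset.2 hl), e⟩) x0
      obtain ⟨n, hn⟩ := sel D S hDS _ c2 (fun x => by
        obtain ⟨l, hl, e⟩ := s2 x
        exact ⟨l, Finset.mem_union_right _ (hS2.mem_toFinset.2 hl), e⟩) x0
      obtain ⟨A, hA⟩ := L3_aff m n
      refine ⟨A, fun x hx => ?_⟩
      rw [hs, hhull x0 hx0] at hx
      rw [hA]
      exact Prod.ext (hm x hx) (hn x hx)

end C715
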