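import Pool.Agent.Work.MP_c71557_gt.F.Step
import Pool.Agent.Work.MP_c71557_gt.F.Fin
import Pool.Agent.Work.MP_c71557_gt.F.Frz

set_option autoImplicit false
set_option linter.unusedVariables false

/-!
# MP_c71557_gt: conclusion from the local computation
-/

namespace C715

open CategoryTheory ActCat

theorem conclusion (A0 : Set P2 → Subgroup (Equiv.Perm P2)) (h : IsWind A0)
    (hloc : ∀ n, 1 ≤ n → n ≤ 5 → Subsingleton (HC (V0 A0 h).Obj n)) :
    ¬ (∃ f : (groupHomology (Rep.trivial ℤ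
        (↥(Subgroup.closure {σ : Equiv.Perm (ℝ × ℝ) |
          Continuous ⇑σ ∧ Continuous ⇑σ.symm ∧
          ∃ P : Finset (Finset (ℝ × ℝ)),
            (∀ x : ℝ × ℝ, x ∉ (⋃ s ∈ P, convexHull ℝ (↑s : Set (ℝ × ℝ))) → σ x = x) ∧
            ∀ s ∈ P, ∃ A : (ℝ × ℝ) →ᵃ[ℝ] (ℝ × ℝ),
              ∀ x ∈ convexHull ℝ (↑s : Set (ℝ × ℝ)), σ x = A x}))
        ℤ) 3) →+ ℝ,
      Function.Surjective f) := by
  refine fin_end _ ?_
  rw [frz]
  exact main_cnt A0 h hloc

end C715
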