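import Pool.Agent.Work.MP_c71557_gt.H.Defs3

set_option autoImplicit false
set_option linter.unusedVariables false

/-!
# MP_c71557_gt, module F/FinA: Mathlib's inhomogeneous chains and the nerve of `sg K` (M)

To `g : Fin n → K` (Mathlib's inhomogeneous bar generator `[g_0 | … | g_{n-1}]`) corresponds the simplex of
`(sg K).Obj` whose arrow `i → j` is (the class of) `(g_i g_{i+1} … g_{j-1})⁻¹` (composition in `sg K`:
`hom a ≫ hom b = hom (b * a)`, so `a_{jk} a_{ij} = a_{ik}` holds for `a_{ij} = (g_i … g_{j-1})⁻¹`).  E.g. with partial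
products `π i = g_0 ⋯ g_{i-1}`, `a_{ij} = (π i)⁻¹... = (π j)⁻¹ * π i`.
The face `pre (dl i)` omits the vertex `i`: `i = 0`: `(g_1, …)`; `0 < i < n+1`: `g_{i-1} g_i` multiplied
(`Fin.contractNth (i-1)`); `i = n + 1`: the last one dropped (`Fin.contractNth n`).  With trivial coefficients
Mathlib's `inhomogeneousChains.d_single` is `single (g ∘ succ) + ∑_j (-1)^(j+1) single (contractNth j (*) g)`, which is
`NC_d_single`.
* `fin_chain`: `c n (single g a) = single (simplex g) (a : ℚ)`; the map `g ↦ simplex g` is a bijection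
  `(Fin n → K) ≃ Sx (sg K).Obj n` (a simplex is determined by the arrows `i → i + 1`; every arrow of `sg K` is the
  class of a unique element of `K`).  Injective: `Finsupp.mapDomain` of an injective map, `ℤ → ℚ` injective.
  Denominators: a rational chain has finitely many coefficients.
-/

namespace C715

open CategoryTheory ActCat

section finchain

variable {Γ : Type} [Group Γ] {K : Subgroup Γ}

/-- the element of a morphism -/
private def fcEl {x y : (sg K).Obj} (f : x ⟶ y) : K :=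
  Quotient.lift (s := (sg K).setoid x.o y.o) (fun g => (⟨g.1, g.2⟩ : K)) (by
    rintro ⟨g, hg⟩ ⟨g', hg'⟩ (e : g⁻¹ * g' ∈ (⊥ : Subgroup Γ))
    rw [Subgroup.mem_bot] at e
    apply Subtype.ext
    exact (inv_mul_eq_one.1 e)) f

private def fcHom (k : K) (x y : (sg K).Obj) : x ⟶ y :=
  (sg K).cl (a := x.o) (b := y.o) (k : Γ) k.2

private theorem fcEl_hom (k : K) (x y : (sg K).Obj) : fcEl (fcHom k x y) = k := rfl

private theorem fcHom_el {x y : (sg K).Obj} (f : x ⟶ y) : fcHom (fcEl f) x y = f := by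
  induction f using ActCat.ind with
  | h g hg => rfl

private theorem fcEl_id (x : (sg K).Obj) : fcEl (𝟙 x) = 1 := rfl

private theorem fcHom_one (x : (sg K).Obj) : fcHom (1 : K) x x = 𝟙 x := rfl

private theorem fcHom_comp (a b : K) (x y z : (sg K).Obj) :
    fcHom a x y ≫ fcHom b y z = fcHom (b * a) x z := rfl

private theorem fcEl_comp {x y z : (sg K).Obj} (f : x ⟶ y) (g : y ⟶ z) :
    fcEl (f ≫ g) = fcEl g * fcEl f := by
  rw [← fcHom_el f, ← fcHom_el g, fcHom_comp, fcEl_hom, fcEl_hom, fcEl_hom]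

private def fcPt : (sg K).Obj := ⟨()⟩

/-- the simplex with partial products `p` -/
private def fcSx {n : ℕ} (p : Fin (n + 1) → K) : Sx (sg K).Obj n where
  o _ := fcPt
  m i j _ := fcHom ((p j)⁻¹ * p i) _ _
  m_self i := by
    rw [inv_mul_cancel, fcHom_one]
  m_comp i j k _ _ := by
    rw [fcHom_comp]
    congr 1
    group

private theorem fcSx_pre {m n : ℕ} (φ : Fin (m + 1) →o Fin (n + 1)) (p : Fin (n + 1) → K) :
    pre φ (fcSx p) = fcSx (fun i => p (φ i)) := rfl

private theorem fcSx_mul {n : ℕ} (c : K) (p : Fin (n + 1) → K) :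
    fcSx (fun i => c * p i) = fcSx p := by
  unfold fcSx
  congr 1
  funext i j h
  congr 1
  group

private def fcS {n : ℕ} (g : Fin n → K) : Sx (sg K).Obj n := fcSx (Fin.partialProd g)

private theorem fcS_pre_zero {n : ℕ} (g : Fin (n + 1) → K) :
    pre (dl 0) (fcS g) = fcS (fun i => g i.succ) := by
  unfold fcS
  rw [fcSx_pre]
  have h1 : (fun i => Fin.partialProd g (dl 0 i)) =
      fun i => g 0 * Fin.partialProd (fun i => g i.succ) i := by
    funext i
    have h2 : dl (0 : Fin (n + 2)) i = i.succ := by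
      rw [dl_apply, Fin.succAbove_zero]
    rw [h2, Fin.partialProd_succ']
    rfl
  rw [h1, fcSx_mul]

private theorem fcS_pre_succ {n : ℕ} (g : Fin (n + 1) → K) (j : Fin (n + 1)) :
    pre (dl j.succ) (fcS g) = fcS (Fin.contractNth j (· * ·) g) := by
  unfold fcS
  rw [fcSx_pre, Fin.partialProd_contractNth]
  rfl

private def fcG {n : ℕ} (σ : Sx (sg K).Obj n) (i : Fin n) : K :=
  (fcEl (σ.m i.castSucc i.succ (Fin.castSucc_le_succ i)))⁻¹

private theorem fcG_S {n : ℕ} (g : Fin n → K) : fcG (fcS g) = g := by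
  funext i
  show (fcEl (fcHom ((Fin.partialProd g i.succ)⁻¹ * Fin.partialProd g i.castSucc) fcPt fcPt))⁻¹ = g i
  rw [fcEl_hom, Fin.partialProd_succ]
  group

private theorem fcG_prod {n : ℕ} (σ : Sx (sg K).Obj n) (i : Fin (n + 1)) :
    Fin.partialProd (fcG σ) i = (fcEl (σ.m 0 i (Fin.zero_le i)))⁻¹ := by
  induction i using Fin.induction with
  | zero =>
    rw [Fin.partialProd_zero]
    have h1 : σ.m 0 0 (Fin.zero_le 0) = 𝟙 (σ.o 0) := σ.m_self 0
    rw [h1, fcEl_id, inv_one]
  | succ i ih =>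
    rw [Fin.partialProd_succ, ih]
    have h1 := σ.m_comp 0 i.castSucc i.succ (Fin.zero_le _) (Fin.castSucc_le_succ i)
    have h2 : fcEl (σ.m 0 i.succ (Fin.zero_le _)) =
        fcEl (σ.m i.castSucc i.succ (Fin.castSucc_le_succ i)) *
          fcEl (σ.m 0 i.castSucc (Fin.zero_le _)) := by
      rw [← fcEl_comp, h1]
    rw [h2, mul_inv_rev]
    rfl

private theorem fcS_G {n : ℕ} (σ : Sx (sg K).Obj n) : fcS (fcG σ) = σ := by
  have hm : ∀ i j (h : i ≤ j), fcEl (σ.m i j h) =
      (Fin.partialProd (fcG σ) j)⁻¹ * Fin.partialProd (fcG σ) i := by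
    intro i j h
    rw [fcG_prod, fcG_prod, inv_inv]
    have h1 := σ.m_comp 0 i j (Fin.zero_le _) h
    have h2 : fcEl (σ.m 0 j (Fin.zero_le _)) =
        fcEl (σ.m i j h) * fcEl (σ.m 0 i (Fin.zero_le _)) := by
      rw [← fcEl_comp, h1]
    rw [h2, mul_inv_cancel_right]
  have hm' : ∀ i j (h : i ≤ j), σ.m i j h = fcHom
      ((Fin.partialProd (fcG σ) j)⁻¹ * Fin.partialProd (fcG σ) i) (σ.o i) (σ.o j) := by
    intro i j h
    rw [← hm i j h, fcHom_el]
  unfold fcS fcSx
  revert hm'
  generalize Fin.partialProd (fcG σ) = p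
  intro hm'
  obtain ⟨o, m, h1, h2⟩ := σ
  have ho : o = fun _ => fcPt := by
    funext i
    rfl
  subst ho
  congr 1
  funext i j h
  exact (hm' i j h).symm

private theorem fcS_inj {n : ℕ} : Function.Injective (fcS : (Fin n → K) → Sx (sg K).Obj n) := by
  intro g g' h
  rw [← fcG_S g, h, fcG_S]

end finchain

theorem fin_chain {Γ : Type} [Group Γ] (K : Subgroup Γ) :
    ∃ c : ∀ n : ℕ, ((Fin n → K) →₀ (Rep.trivial ℤ K ℤ)) →+ (NC (sg K).Obj).X n,
      (∀ (n : ℕ) (x : (Fin (n + 1) → K) →₀ (Rep.trivial ℤ K ℤ)),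
        c n ((groupHomology.inhomogeneousChains.d (Rep.trivial ℤ K ℤ) n).hom x) =
          (NC (sg K).Obj).d n (c (n + 1) x)) ∧
      (∀ n, Function.Injective (c n)) ∧
      ∀ (n : ℕ) (y : (NC (sg K).Obj).X n), ∃ (N : ℕ) (x : (Fin n → K) →₀ (Rep.trivial ℤ K ℤ)),
        1 ≤ N ∧ (N : ℚ) • y = c n x := by
  obtain ⟨c, hc⟩ : ∃ c : ∀ n : ℕ, ((Fin n → K) →₀ (Rep.trivial ℤ K ℤ)) →+
      (NC (sg K).Obj).X n, ∀ n x, c n x =
        Finsupp.mapDomain fcS (Finsupp.mapRange (fun a : ℤ => (a : ℚ)) Int.cast_zero x) := by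
    refine ⟨fun n => (Finsupp.mapDomain.addMonoidHom fcS).comp
      (Finsupp.mapRange.addMonoidHom (Int.castAddHom ℚ)), ?_⟩
    intro n x
    rfl
  have hcs : ∀ n (g : Fin n → K) (a : ℤ),
      c n (Finsupp.single g a) = Finsupp.single (fcS g) (a : ℚ) := by
    intro n g a
    rw [hc, Finsupp.mapRange_single, Finsupp.mapDomain_single]
  refine ⟨c, ?_, ?_, ?_⟩
  · intro n x
    induction x using Finsupp.induction_linear with
    | zero => rw [map_zero, map_zero, map_zero, map_zero]
    | add x y hx hy => rw [map_add, map_add, map_add, map_add, hx, hy]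
    | single g a =>
      rw [groupHomology.inhomogeneousChains.d_single, hcs, NC_d_single, map_add, map_sum]
      refine Eq.trans ?_ (Fin.sum_univ_succ _).symm
      congr 1
      · rw [fcS_pre_zero, Fin.val_zero, pow_zero, one_smul]
        exact hcs n _ _
      · refine Finset.sum_congr rfl fun j _ => ?_
        have h1 : ((-1 : ℤ) ^ ((j : ℕ) + 1)) •
            (Finsupp.single (Fin.contractNth j (· * ·) g) a :
              (Fin n → K) →₀ (Rep.trivial ℤ K ℤ)) =
            Finsupp.single (Fin.contractNth j (· * ·) g) (((-1 : ℤ) ^ ((j : ℕ) + 1)) • a) :=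
          Finsupp.smul_single _ _ _
        have h2 : ((((-1 : ℤ) ^ ((j : ℕ) + 1)) * (a : ℤ) : ℤ) : ℚ) =
            ((-1 : ℚ) ^ ((j : ℕ) + 1)) * ((a : ℤ) : ℚ) := by
          push_cast
          rfl
        refine (congrArg (c n) h1).trans ((hcs n _ _).trans ?_)
        rw [fcS_pre_succ, Finsupp.smul_single]
        congr 1
  · intro n x y hxy
    rw [hc, hc] at hxy
    have h1 := Finsupp.mapDomain_injective fcS_inj hxy
    exact Finsupp.mapRange_injective _ _ Int.cast_injective h1
  · intro n y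
    induction y using Finsupp.induction_linear with
    | zero => exact ⟨1, 0, le_rfl, by rw [map_zero, smul_zero]⟩
    | add y z hy hz =>
      obtain ⟨N, x, hN, hx⟩ := hy
      obtain ⟨N', x', hN', hx'⟩ := hz
      refine ⟨N * N', N' • x + N • x', Nat.mul_pos hN hN', ?_⟩
      rw [map_add, map_nsmul, map_nsmul, ← hx, ← hx', smul_add, Nat.cast_mul]
      congr 1
      · rw [← Nat.cast_smul_eq_nsmul ℚ, smul_smul, mul_comm]
      · rw [← Nat.cast_smul_eq_nsmul ℚ, smul_smul]
    | single σ q =>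
      refine ⟨q.den, Finsupp.single (fcG σ) q.num, q.den_pos, ?_⟩
      rw [hcs, fcS_G, Finsupp.smul_single, smul_eq_mul, Rat.den_mul_eq_num]

end C715
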