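import Pool.Agent.Work.MP_c71557_gt.D.Adm
import Pool.Agent.Work.MP_c71557_gt.D.CEG
import Pool.Agent.Work.MP_c71557_gt.H.KrH
import Pool.Agent.Work.MP_c71557_gt.H.Tw
import Pool.Agent.Work.MP_c71557_gt.L.LD
import Pool.Agent.Work.MP_c71557_gt.L.LE

set_option autoImplicit false
set_option linter.unusedVariables false

/-!
# MP_c71557_gt, module F/Kc: the functors of the final comparison (S-M)

`kc_adm`: cases: `g ∈ HH` at `false` or `true` (`hh_padm_g`, `hh_padm_t`), `g ∈ HH` from `false` to `true`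
(`hh_padm_g`, `gt_padm`, `PAdm.mul`), `mh⁻¹ g ∈ HH` from `false` to `true`: `g = mh (mh⁻¹ g)`, `hh_padm_g`, `mt_padm`.
`kc_sq`: both functors send `g` to the class of `g.2` between the same blocks (`Functor.hext`, `ActCat.ind`).
`th0_adm`: `(susp HH).Adm x g y` means `(x = y ∨ y = t) ∧ g ∈ HH`; use `mh_comm`.
-/

namespace C715

open CategoryTheory ActCat

/-- blocks of the two objects -/
noncomputable def jk (b : Bool) : LineGrp.Blk := cond b Jt Jg

theorem kc_adm {x y : Bool} {g : Equiv.Perm P2 × Equiv.Perm P2}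
    (h : (kc HH mh mh_comm).Adm x g y) : g ∈ EE ∧ PAdm (jk x) g.2 (jk y) := by
  rcases h with ⟨rfl, hg⟩ | ⟨rfl, rfl, hg | hg⟩
  · refine ⟨HH_le hg, ?_⟩
    cases x
    · exact hh_padm_g g hg
    · exact hh_padm_t g hg
  · refine ⟨HH_le hg, ?_⟩
    have h1 := (hh_padm_g g hg).mul (HH_le hg).1.2.2.1 gt_padm
    rwa [one_mul] at h1
  · have h1 : g = mh * (mh⁻¹ * g) := by group
    have h2 : g.2 = mt * (mh⁻¹ * g).2 := congrArg Prod.snd h1
    refine ⟨?_, ?_⟩
    · rw [h1]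
      exact EE.mul_mem mh_mem (HH_le hg)
    · rw [h2]
      exact (hh_padm_g _ hg).mul (HH_le hg).1.2.2.1 mt_padm

/-- `kc → CE` -/
noncomputable def kcE : (kc HH mh mh_comm).Obj ⥤ CE.Obj :=
  idFun (A := kc HH mh mh_comm) (A' := CE) jk (fun h => kc_adm h) (fun h => h)

theorem kr_N {x : Bool} {n : Equiv.Perm P2 × Equiv.Perm P2}
    (h : n ∈ (kr HH mh mh_comm).N x) : n.2 ∈ GS.NG (jk x) := by
  cases x
  · exact hh_near n h
  · have h' : n ∈ (⊥ : Subgroup (Equiv.Perm P2 × Equiv.Perm P2)) := h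
    rw [Subgroup.mem_bot] at h'
    subst h'
    exact (GS.NG _).one_mem

/-- `kr → CG` -/
noncomputable def krG : (kr HH mh mh_comm).Obj ⥤ GS.CG.Obj :=
  functor (A := kr HH mh mh_comm) (A' := GS.CG) jk
    (MonoidHom.snd (Equiv.Perm P2) (Equiv.Perm P2))
    (fun {x y g} h => adm_of_lft (kc_adm (x := x) (y := y) h).1.1 (kc_adm (x := x) (y := y) h).2)
    (fun {x n} h => kr_N h)

theorem kc_sq (n : ℕ) (x : HC (kc HH mh mh_comm).Obj n) :
    HCmap devF n (HCmap kcE n x) = HCmap krG n (HCmap (kcPr HH mh mh_comm) n x) := by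
  have h : kcE ⋙ devF = kcPr HH mh mh_comm ⋙ krG := by
    refine CategoryTheory.Functor.hext (fun x => rfl) (fun x y u => heq_of_eq ?_)
    induction u using ActCat.ind with
    | h g hg => rfl
  rw [← HCmap_comp, ← HCmap_comp, h]

/-- objects of the functor `susp → kr` -/
def fo : S3 → Bool
  | S3.a => false
  | S3.b => false
  | S3.t => true

/-- twist of the functor `susp → kr` -/
noncomputable def fc : S3 → Equiv.Perm P2 × Equiv.Perm P2
  | S3.a => 1
  | S3.b => mh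
  | S3.t => 1

theorem th0_adm {x y : S3} {g : Equiv.Perm P2 × Equiv.Perm P2} (h : (susp HH).Adm x g y) :
    (kr HH mh mh_comm).Adm (fo x) ((fc y)⁻¹ * g * fc x) (fo y) := by
  obtain ⟨h0, hg⟩ := h
  have e1 : (1 : Equiv.Perm P2 × Equiv.Perm P2)⁻¹ * g * 1 = g := by group
  have e2 : mh⁻¹ * g * mh = g := by rw [mul_assoc, mh_comm g hg]; group
  have e3 : mh⁻¹ * ((1 : Equiv.Perm P2 × Equiv.Perm P2)⁻¹ * g * mh) = g := by
    rw [inv_one, one_mul, mh_comm g hg]; group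
  rcases h0 with rfl | rfl
  · refine Or.inl ⟨rfl, ?_⟩
    cases x
    · change (1 : Equiv.Perm P2 × Equiv.Perm P2)⁻¹ * g * 1 ∈ HH
      rwa [e1]
    · change mh⁻¹ * g * mh ∈ HH
      rwa [e2]
    · change (1 : Equiv.Perm P2 × Equiv.Perm P2)⁻¹ * g * 1 ∈ HH
      rwa [e1]
  · cases x
    · refine Or.inr ⟨rfl, rfl, Or.inl ?_⟩
      change (1 : Equiv.Perm P2 × Equiv.Perm P2)⁻¹ * g * 1 ∈ HH
      rwa [e1]
    · refine Or.inr ⟨rfl, rfl, Or.inr ?_⟩
      change mh⁻¹ * ((1 : Equiv.Perm P2 × Equiv.Perm P2)⁻¹ * g * mh) ∈ HH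
      rwa [e3]
    · refine Or.inl ⟨rfl, ?_⟩
      change (1 : Equiv.Perm P2 × Equiv.Perm P2)⁻¹ * g * 1 ∈ HH
      rwa [e1]

theorem th0_N {x : S3} {n : Equiv.Perm P2 × Equiv.Perm P2} (h : n ∈ (susp HH).N x) :
    (fc x)⁻¹ * n * fc x ∈ (kr HH mh mh_comm).N (fo x) := by
  have e1 : (1 : Equiv.Perm P2 × Equiv.Perm P2)⁻¹ * n * 1 = n := by group
  cases x
  · change (1 : Equiv.Perm P2 × Equiv.Perm P2)⁻¹ * n * 1 ∈ HH
    rw [e1]
    exact h
  · have hn : n ∈ HH := h
    change mh⁻¹ * n * mh ∈ HH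
    have e2 : mh⁻¹ * n * mh = n := by rw [mul_assoc, mh_comm n hn]; group
    rwa [e2]
  · have hn : n ∈ (⊥ : Subgroup (Equiv.Perm P2 × Equiv.Perm P2)) := h
    change (1 : Equiv.Perm P2 × Equiv.Perm P2)⁻¹ * n * 1 ∈
      (⊥ : Subgroup (Equiv.Perm P2 × Equiv.Perm P2))
    rwa [e1]

/-- `susp → kr` -/
noncomputable def th0 : (susp HH).Obj ⥤ (kr HH mh mh_comm).Obj :=
  twFun2 (A := susp HH) (A' := kr HH mh mh_comm) fo
    (MonoidHom.id (Equiv.Perm P2 × Equiv.Perm P2)) fc (fun h => th0_adm h) (fun h => th0_N h)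

/-- `susp HH → susp (GU Db)` -/
noncomputable def spM : (susp HH).Obj ⥤ (susp (GU Db)).Obj :=
  functor (A := susp HH) (A' := susp (GU Db)) (fun x => x) ph0
    (fun {x y g} h => ⟨h.1, ph0_mem g h.2⟩)
    (fun {x n} h => by
      cases x
      · exact ph0_mem n h
      · exact ph0_mem n h
      · have h' : n ∈ (⊥ : Subgroup (Equiv.Perm P2 × Equiv.Perm P2)) := h
        rw [Subgroup.mem_bot] at h'
        subst h'
        rw [map_one]
        exact Subgroup.one_mem _)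

theorem spM_hiso : HIso spM := by
  have hf : spM.Faithful := ⟨fun {x y f f'} e => by
    induction f using ActCat.ind with
    | h g hg =>
      induction f' using ActCat.ind with
      | h g' hg' =>
        have e1 : (ph0 g)⁻¹ * ph0 g' ∈ (susp (GU Db)).N x.o := ActCat.cl_eq.1 e
        refine ActCat.cl_eq.2 ?_
        have hm : g⁻¹ * g' ∈ HH := HH.mul_mem (HH.inv_mem hg.2) hg'.2
        obtain ⟨x⟩ := x
        cases x
        · exact hm
        · exact hm
        · have e2 : (ph0 g)⁻¹ * ph0 g' ∈ (⊥ : Subgroup (Equiv.Perm P2)) := e1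
          rw [Subgroup.mem_bot, ← map_inv, ← map_mul] at e2
          change g⁻¹ * g' ∈ (⊥ : Subgroup (Equiv.Perm P2 × Equiv.Perm P2))
          rw [Subgroup.mem_bot]
          exact ph0_inj _ hm e2⟩
  have hl : spM.Full := ⟨fun {x y} f => by
    induction f using ActCat.ind with
    | h g hg =>
      obtain ⟨p, hp, hpg⟩ := ph0_surj g hg.2
      refine ⟨(susp HH).hom (a := x.o) (b := y.o) p ⟨hg.1, hp⟩, ActCat.cl_eq.2 ?_⟩
      change (ph0 p)⁻¹ * g ∈ (susp (GU Db)).N x.o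
      rw [hpg, inv_mul_cancel]
      exact Subgroup.one_mem _⟩
  have he : spM.EssSurj := ⟨fun y => ⟨⟨y.o⟩, ⟨eqToIso rfl⟩⟩⟩
  have : spM.IsEquivalence := { }
  exact hiso_of_equiv _

/-- the suspension functor of the line group of the strip -/
noncomputable def susS : (susp (GU Db)).Obj ⥤ GS.CV.Obj :=
  GS.sus (GU Db) Jg Jb Jt jgt jbt db_R db_L db_t

/-- `sg HH → CE` at the block `Jg` -/
noncomputable def hhE : (sg HH).Obj ⥤ CE.Obj :=
  idFun (A := sg HH) (A' := CE) (fun _ => Jg) (fun {_ _ g} h => ⟨HH_le h, hh_padm_g g h⟩)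
    (fun h => h)

theorem hhE_zero (n : ℕ) (x : HC (sg HH).Obj (n + 1)) :
    HCmap devF (n + 1) (HCmap hhE (n + 1) x) = 0 := by
  have h : hhE ⋙ devF = toPt _ ⋙ ptF (⟨Jg⟩ : GS.CG.Obj) := by
    refine CategoryTheory.Functor.hext (fun x => rfl) (fun x y u => heq_of_eq ?_)
    induction u using ActCat.ind with
    | h g hg =>
      refine (cl_eq (A := GS.CG) (a := Jg) (b := Jg)).2 ?_
      have h1 : g.2 ∈ GS.NG Jg := hh_near g hg
      change (g.2)⁻¹ * 1 ∈ GS.NG Jg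
      rw [mul_one]
      exact (GS.NG Jg).inv_mem h1
  rw [← HCmap_comp, h, HCmap_comp]
  have h2 : Subsingleton (HC ActCat.Pt (n + 1)) := acy_pt.2.2 n
  rw [Subsingleton.elim (HCmap (toPt _) (n + 1) x) 0, map_zero]

end C715
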