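import Pool.Agent.Work.MP_c71557_gt.F.Kc
import Pool.Agent.Work.MP_c71557_gt.P.Shear

set_option autoImplicit false
set_option linter.unusedVariables false

/-!
# MP_c71557_gt, module F/Nat: two natural transformations (M-L)

`mp_ex`: `m' z = (z.1 + φ' z, z.2)`, `φ' z = min (psi z.2) (min (8 (z.1 + 2 z.2)⁺) ((8/9) ((17/4) z.2 - z.1)⁺))`, `shear1` with
the compact set `{2 ≤ z.2 ≤ 3, |z.1| ≤ 13} ⊆ St` (`psi y = 0` for `y ≤ 2` and `3 ≤ y`; for `2 < y < 3` the other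
factors vanish unless `-2 y ≤ z.1 ≤ (17/4) y`; where `z.2 ≤ 0` the minimum is `0` too); slopes `≥ -8/9`.
 (1) `-3/2 ≤ ps z ≤ -1/4` gives `φ' z = psi z.2` (`8 (ps + 2) ≥ 4`, `(8/9)(17/4 - ps) ≥ 4`), so `m' z = mt z`;
 (2) `ps z ≤ ps (m' z)`, and `ps (m' z) ≤ 17/4` if `ps z ≤ 17/4`, `m' z = z` if `17/4 ≤ ps z`;
 (3) monotone: if `z.2 = w.2`, `ps z ≤ ps w` then `ps (m' z) ≤ ps (m' w)`;
 so `ps z ≤ -1` gives `ps (m' z) ≤ 3`; `-1 - e ≤ ps z`, `e ≤ 1/2`, `19/8 ≤ z.2 ≤ 21/8` gives `3 - e ≤ ps (m' z)`.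
Three functors `susp HH ⥤ GS.CG` of the form `twFun2 f φ c`:
* `F1`: objects `(Jg, Jg, Jt)` (at `a, b, t`), `φ = snd`, `c = (1, mt, 1)`; it is `th0 ⋙ krG` (same classes);
* `F3`: objects `(Jg, Jt, Jt)`, `φ = snd`, `c = (1, m', 1)`;
* `F2`: objects `(Jg, Jb, Jt)`, `φ = ph0`, `c = 1`; it is `spM ⋙ susS ⋙ GS.cvcg`.
`F3` is well defined: for `g ∈ HH`, `m'⁻¹ g.2 m'` is the identity near `Jt`: let `-1 - e ≤ ps z ≤ 17/4 + e` with
`e = 1/16`; if `z.2 ∉ (19/8, 21/8)` then `m' z` is in no `(TT^k) '' Db`; otherwise `3 - e ≤ ps (m' z) ≤ 17/4 + e < 22/5`, so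
again `m' z` is in no `(TT^k) '' Db` (`Db_bd`) and `g.2 (m' z) = m' z` (`hh_id`).  Hence the arrows `b → b` are `AdmG` (near
`1`) and `N b` goes to `NG`.  `b → t`: `g.2 m'` : `GS.Adm Jt m' Jt` by (2) and `adm_of_lft` (`hh_padm_t`).
`tw_nat F1 → F3` with `γ = (1, 1, 1)` (`1 : Jg → Jt` at `b`): the conditions are trivial except at `b → b`: near `Jg`,
`m' z = mt z`, `g.2 (mt z) = mt (g.2 z) = mt z` (`mh_comm`, `hh_near`), so both are the identity near `Jg`; and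
`b → t`: `(g.2 m')⁻¹ (g.2 mt) = m'⁻¹ mt` is the identity near `Jg` by (1).
`tw_nat F2 → F3` with `γ = (1, m'⁻¹, 1)`: `GS.Adm Jb m'⁻¹ Jt`: if `ps x ≤ 17/4 + d` then `ps (m'⁻¹ x) ≤ 17/4 + d`; if
`ps (m'⁻¹ x) < -1` then `ps x ≤ 3 < 7/2 - d`.  All conditions reduce to `g.2⁻¹ (ph0 g)` being the identity near
`Jg`, `Jb`, `Jt`: `hh_loc` (`-3 ≤ ps ≤ 35/8`).
-/

namespace C715

open CategoryTheory ActCat

private theorem psi_nn (y : ℝ) : 0 ≤ psi y := le_max_left _ _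

private theorem psi_off (y : ℝ) (h : y ≤ 2 ∨ 3 ≤ y) : psi y = 0 := by
  unfold psi
  refine max_eq_left ?_
  rcases h with h | h
  · exact ((min_le_right _ _).trans (min_le_left _ _)).trans (by linarith)
  · exact ((min_le_right _ _).trans (min_le_right _ _)).trans (by linarith)

/-- the displacement -/
private noncomputable def phm (z : P2) : ℝ :=
  min (psi z.2) (min (8 * max 0 (z.1 + 2 * z.2)) ((8 / 9) * max 0 ((17 / 4) * z.2 - z.1)))

private theorem phm_nn (z : P2) : 0 ≤ phm z :=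
  le_min (psi_nn _) (le_min (mul_nonneg (by norm_num) (le_max_left _ _))
    (mul_nonneg (by norm_num) (le_max_left _ _)))

private theorem phm_pl : IsPLf phm := by
  have h1 : IsPLf (fun z : P2 => psi z.2) := by
    have := (IsPLf.const 0).max ((IsPLf.snd.smul 4).min
      (((IsPLf.snd.sub (IsPLf.const 2)).smul 32).min (((IsPLf.const 3).sub IsPLf.snd).smul 32)))
    exact this
  have h2 : IsPLf (fun z : P2 => 8 * max 0 (z.1 + 2 * z.2)) :=
    ((IsPLf.const 0).max (IsPLf.fst.add (IsPLf.snd.smul 2))).smul 8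
  have h3 : IsPLf (fun z : P2 => (8 / 9) * max 0 ((17 / 4) * z.2 - z.1)) :=
    ((IsPLf.const 0).max ((IsPLf.snd.smul (17 / 4)).sub IsPLf.fst)).smul (8 / 9)
  exact h1.min (h2.min h3)

private theorem phm_supp (z : P2) (hz : z ∉ Set.Icc ((-13, 2) : P2) (13, 3)) : phm z = 0 := by
  refine le_antisymm ?_ (phm_nn z)
  by_cases h1 : z.2 ≤ 2
  · exact (min_le_left _ _).trans (psi_off _ (Or.inl h1)).le
  by_cases h2 : 3 ≤ z.2
  · exact (min_le_left _ _).trans (psi_off _ (Or.inr h2)).le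
  rw [not_le] at h1 h2
  by_cases h3 : z.1 ≤ 13
  · by_cases h4 : -13 ≤ z.1
    · exact absurd ⟨⟨h4, h1.le⟩, ⟨h3, h2.le⟩⟩ hz
    · rw [not_le] at h4
      refine (min_le_right _ _).trans ((min_le_left _ _).trans ?_)
      rw [max_eq_left (by linarith), mul_zero]
  · rw [not_le] at h3
    refine (min_le_right _ _).trans ((min_le_right _ _).trans ?_)
    rw [max_eq_left (by linarith), mul_zero]

private theorem phm_mono (y : ℝ) : StrictMono (fun t : ℝ => t + phm (t, y)) := by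
  refine strictMono_of_slope _ (8 / 9) (by norm_num) fun s t hst => ?_
  have h0 : phm (s, y) - 8 / 9 * (t - s) ≤ phm (t, y) := by
    have hp : 0 ≤ 8 / 9 * (t - s) := by
      have : 0 < t - s := by linarith
      positivity
    have a1 : phm (s, y) ≤ psi y := min_le_left _ _
    have a2 : phm (s, y) ≤ 8 * max 0 (s + 2 * y) := (min_le_right _ _).trans (min_le_left _ _)
    have a3 : phm (s, y) ≤ (8 / 9) * max 0 ((17 / 4) * y - s) :=
      (min_le_right _ _).trans (min_le_right _ _)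
    refine le_min ?_ (le_min ?_ ?_)
    · change phm (s, y) - 8 / 9 * (t - s) ≤ psi y
      linarith
    · change phm (s, y) - 8 / 9 * (t - s) ≤ 8 * max 0 (t + 2 * y)
      have : max 0 (s + 2 * y) ≤ max 0 (t + 2 * y) := max_le_max le_rfl (by linarith)
      linarith
    · change phm (s, y) - 8 / 9 * (t - s) ≤ (8 / 9) * max 0 ((17 / 4) * y - t)
      have : max 0 ((17 / 4) * y - s) ≤ max 0 ((17 / 4) * y - t) + (t - s) := by
        refine max_le ?_ ?_
        · have := le_max_left 0 ((17 / 4) * y - t)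
          linarith
        · have := le_max_right 0 ((17 / 4) * y - t)
          linarith
      linarith
  linarith

theorem mp_ex : ∃ m' ∈ GU St, (∀ z : P2, (m' z).2 = z.2) ∧
    (∀ z ∈ St, -(3 / 2) ≤ ps z → ps z ≤ -(1 / 4) → m' z = mt z) ∧
    (∀ z ∈ St, ps z ≤ ps (m' z)) ∧ (∀ z ∈ St, ps z ≤ 17 / 4 → ps (m' z) ≤ 17 / 4) ∧
    (∀ z ∈ St, 17 / 4 ≤ ps z → m' z = z) ∧
    ∀ z ∈ St, ∀ w ∈ St, z.2 = w.2 → ps z ≤ ps w → ps (m' z) ≤ ps (m' w) := by
  obtain ⟨m', hm, e⟩ := shear1 phm phm_pl St (Set.Icc ((-13, 2) : P2) (13, 3))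
    (fun z hz => by
      have h1 : (2 : ℝ) ≤ z.2 := hz.1.2
      have h2 : (1 : ℝ) < z.2 := by linarith
      exact h2) isCompact_Icc phm_supp phm_mono
  refine ⟨m', hm, fun z => by rw [e], fun z hz h1 h2 => ?_, fun z hz => ?_, fun z hz h => ?_,
    fun z hz h => ?_, fun z hz w hw h2 h => ?_⟩
  · have hz1 : (1 : ℝ) < z.2 := hz
    have hz0 : (0 : ℝ) < z.2 := by linarith
    unfold ps at h1 h2
    rw [le_div_iff₀ hz0] at h1
    rw [div_le_iff₀ hz0] at h2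
    have hpsi : psi z.2 ≤ 4 * z.2 := max_le (by linarith) (min_le_left _ _)
    have h3 : phm z = psi z.2 := by
      refine min_eq_left (le_min ?_ ?_)
      · have := le_max_right 0 (z.1 + 2 * z.2)
        linarith
      · have := le_max_right 0 ((17 / 4) * z.2 - z.1)
        linarith
    rw [e, h3]
    rfl
  · have hz1 : (1 : ℝ) < z.2 := hz
    rw [e]
    unfold ps
    have := phm_nn z
    exact div_le_div_of_nonneg_right (by simp only; linarith) (by linarith)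
  · have hz1 : (1 : ℝ) < z.2 := hz
    have hz0 : (0 : ℝ) < z.2 := by linarith
    rw [e]
    unfold ps at h ⊢
    simp only
    rw [div_le_iff₀ hz0] at h ⊢
    have h3 : phm z ≤ (8 / 9) * max 0 ((17 / 4) * z.2 - z.1) :=
      (min_le_right _ _).trans (min_le_right _ _)
    rw [max_eq_right (by linarith)] at h3
    linarith
  · have hz1 : (1 : ℝ) < z.2 := hz
    have hz0 : (0 : ℝ) < z.2 := by linarith
    unfold ps at h
    rw [le_div_iff₀ hz0] at h
    have h3 : phm z = 0 := by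
      refine le_antisymm ((min_le_right _ _).trans ((min_le_right _ _).trans ?_)) (phm_nn z)
      rw [max_eq_left (by linarith), mul_zero]
    rw [e, h3, add_zero]
  · have hz1 : (1 : ℝ) < z.2 := hz
    have hz0 : (0 : ℝ) < z.2 := by linarith
    rw [e, e]
    unfold ps at h ⊢
    rw [← h2] at h ⊢
    simp only
    have h4 : z.1 ≤ w.1 := by
      rwa [div_le_div_iff_of_pos_right hz0] at h
    have h5 := (phm_mono z.2).monotone h4
    refine div_le_div_of_nonneg_right ?_ hz0.le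
    have e1 : ((z.1, z.2) : P2) = z := rfl
    have e2 : ((w.1, z.2) : P2) = w := by rw [h2]
    rwa [e1, e2] at h5

/-- the chosen displacement -/
private noncomputable def m' : Equiv.Perm P2 := Classical.choose mp_ex

private theorem m'_GU : m' ∈ GU St := (Classical.choose_spec mp_ex).1

private theorem m'_snd (z : P2) : (m' z).2 = z.2 := (Classical.choose_spec mp_ex).2.1 z

private theorem m'_mt : ∀ z ∈ St, -(3 / 2) ≤ ps z → ps z ≤ -(1 / 4) → m' z = mt z :=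
  (Classical.choose_spec mp_ex).2.2.1

private theorem m'_le : ∀ z ∈ St, ps z ≤ ps (m' z) := (Classical.choose_spec mp_ex).2.2.2.1

private theorem m'_top : ∀ z ∈ St, ps z ≤ 17 / 4 → ps (m' z) ≤ 17 / 4 :=
  (Classical.choose_spec mp_ex).2.2.2.2.1

private theorem m'_id : ∀ z ∈ St, 17 / 4 ≤ ps z → m' z = z :=
  (Classical.choose_spec mp_ex).2.2.2.2.2.1

private theorem m'_mono : ∀ z ∈ St, ∀ w ∈ St, z.2 = w.2 → ps z ≤ ps w → ps (m' z) ≤ ps (m' w) :=
  (Classical.choose_spec mp_ex).2.2.2.2.2.2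

/-- the point at position `-1` -/
private theorem m'_z0 (y : ℝ) (hy : 1 < y) : ((-y, y) : P2) ∈ St ∧ ps ((-y, y) : P2) = -1 ∧
    ps (m' ((-y, y) : P2)) = -1 + psi y / y := by
  have hy0 : (0 : ℝ) < y := by linarith
  have h1 : ((-y, y) : P2) ∈ St := hy
  have h2 : ps ((-y, y) : P2) = -1 := by
    unfold ps
    simp only
    rw [neg_div, div_self hy0.ne']
  refine ⟨h1, h2, ?_⟩
  rw [m'_mt _ h1 (by rw [h2]; norm_num) (by rw [h2]; norm_num)]
  change (-y + psi y) / y = _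
  rw [add_div, neg_div, div_self hy0.ne']

private theorem m'_low (z : P2) (hz : z ∈ St) (h : ps z ≤ -1) : ps (m' z) ≤ 3 := by
  have hz1 : (1 : ℝ) < z.2 := hz
  have hz0 : (0 : ℝ) < z.2 := by linarith
  obtain ⟨a1, a2, a3⟩ := m'_z0 z.2 hz1
  have h1 := m'_mono z hz _ a1 rfl (by rw [a2]; exact h)
  rw [a3] at h1
  have hpsi : psi z.2 ≤ 4 * z.2 := max_le (by linarith) (min_le_left _ _)
  have h2 : psi z.2 / z.2 ≤ 4 := by rwa [div_le_iff₀ hz0]
  linarith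

private theorem m'_high (z : P2) (hz : z ∈ St) (h : -1 - 1 / 16 ≤ ps z) (h1 : 19 / 8 ≤ z.2)
    (h2 : z.2 ≤ 21 / 8) : 3 - 1 / 16 ≤ ps (m' z) := by
  have hz1 : (1 : ℝ) < z.2 := hz
  have hz0 : (0 : ℝ) < z.2 := by linarith
  have hpsi : psi z.2 = 4 * z.2 := by
    have h3 := congrArg Prod.fst (mt_TT z h1 h2)
    have h4 : z.1 + psi z.2 = z.1 + 4 * z.2 := h3
    linarith
  rcases le_or_gt (ps z) (-1) with h3 | h3
  · have h4 := m'_mt z hz (by linarith) (by linarith)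
    rw [h4]
    have h5 : ps (mt z) = ps z + psi z.2 / z.2 := by
      change (z.1 + psi z.2) / z.2 = z.1 / z.2 + psi z.2 / z.2
      rw [add_div]
    rw [h5, hpsi, mul_div_assoc, div_self hz0.ne']
    linarith
  · obtain ⟨a1, a2, a3⟩ := m'_z0 z.2 hz1
    have h4 := m'_mono _ a1 z hz rfl (by rw [a2]; exact h3.le)
    rw [a3, hpsi, mul_div_assoc, div_self hz0.ne'] at h4
    linarith

private theorem m'_off (z : P2) (hz : z ∈ St) (h1 : -1 - 1 / 16 ≤ ps z)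
    (h2 : ps z ≤ 17 / 4 + 1 / 16) (k : ℤ) : m' z ∉ (TT ^ k) '' Db := by
  rintro ⟨w, hw, e⟩
  obtain ⟨b1, b2, b3, b4⟩ := Db_bd w hw
  have hw0 : (0 : ℝ) < w.2 := by linarith
  rw [TT_zpow] at e
  have e2 : w.2 = z.2 := by
    have := congrArg Prod.snd e
    rw [m'_snd] at this
    exact this
  have e1 : ps (m' z) = ps w + 4 * k := by
    rw [← e]
    unfold ps
    simp only
    field_simp
  have h3 := m'_high z hz h1 (by rw [← e2]; exact b3.le) (by rw [← e2]; exact b4.le)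
  have h4 : ps (m' z) ≤ 17 / 4 + 1 / 16 := by
    rcases le_or_gt (ps z) (17 / 4) with h | h
    · have := m'_top z hz h
      linarith
    · rw [m'_id z hz h.le]
      exact h2
  rw [e1] at h3 h4
  have k1 : (0 : ℝ) < k := by linarith
  have k2 : (k : ℝ) < 1 := by linarith
  have k3 : (0 : ℤ) < k := by exact_mod_cast k1
  have k4 : k < (1 : ℤ) := by exact_mod_cast k2
  omega

/-- conjugation by `m'` makes `HH` trivial near `Jt` -/
private theorem conj_Jt {g : Equiv.Perm P2 × Equiv.Perm P2} (hg : g ∈ HH) :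
    m'⁻¹ * g.2 * m' ∈ GS.NG Jt := by
  refine ⟨1 / 16, by norm_num, fun z hz h1 h2 => ?_⟩
  have h3 : g.2 (m' z) = m' z := hh_id g hg _ (m'_off z hz h1 h2)
  rw [Equiv.Perm.mul_apply, Equiv.Perm.mul_apply, h3, Equiv.Perm.one_apply]
  exact m'.symm_apply_apply z

private theorem NG_mono {J J' : LineGrp.Blk} (h1 : J'.1.1 ≤ J.1.1) (h2 : J.1.2 ≤ J'.1.2)
    {g : Equiv.Perm P2} (hg : g ∈ GS.NG J') : g ∈ GS.NG J := by
  obtain ⟨ε, hε, h⟩ := hg
  exact ⟨ε, hε, fun z hz a b => h z hz (by linarith) (by linarith)⟩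

private theorem conj_Jg {g : Equiv.Perm P2 × Equiv.Perm P2} (hg : g ∈ HH) :
    m'⁻¹ * g.2 * m' ∈ GS.NG Jg :=
  NG_mono (J := Jg) (J' := Jt) (le_refl (-1 : ℝ)) (by
    change (-1 / 2 : ℝ) ≤ 17 / 4
    norm_num) (conj_Jt hg)

private theorem near_Jg {g : Equiv.Perm P2 × Equiv.Perm P2} (hg : g ∈ HH) : g.2 ∈ GS.NG Jg :=
  hh_near g hg

private theorem mt_conj {g : Equiv.Perm P2 × Equiv.Perm P2} (hg : g ∈ HH) :
    mt⁻¹ * g.2 * mt = g.2 := by
  have h1 : g.2 * mt = mt * g.2 := congrArg Prod.snd (mh_comm g hg)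
  rw [mul_assoc, h1]
  group

private theorem m'_mt_Jg : m'⁻¹ * mt ∈ GS.NG Jg := by
  refine ⟨1 / 4, by norm_num, fun z hz h1 h2 => ?_⟩
  have h1' : -1 - 1 / 4 ≤ ps z := h1
  have h2' : ps z ≤ -1 / 2 + 1 / 4 := h2
  have h3 := m'_mt z hz (by linarith) (by linarith)
  rw [Equiv.Perm.mul_apply, ← h3, Equiv.Perm.one_apply]
  exact m'.symm_apply_apply z

private theorem m'_adm : GS.Adm Jt m' Jt := by
  refine ⟨m'_GU, fun ε hε => ⟨ε, hε, fun z hz h => ?_⟩, fun ε hε => ⟨ε, hε, fun z hz h => ?_⟩⟩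
  · have h' : ps z ≤ 17 / 4 + ε := h
    change ps (m' z) ≤ 17 / 4 + ε
    rcases le_or_gt (ps z) (17 / 4) with h1 | h1
    · have := m'_top z hz h1
      linarith
    · rw [m'_id z hz h1.le]
      exact h'
  · have h' : -1 - ε ≤ ps z := h
    change -1 - ε ≤ ps (m' z)
    exact h'.trans (m'_le z hz)

private theorem m'_inv_adm : GS.Adm Jb m'⁻¹ Jt := by
  refine ⟨(GU St).inv_mem m'_GU, fun ε hε => ⟨ε, hε, fun x hx h => ?_⟩,
    fun ε hε => ⟨1 / 4, by norm_num, fun x hx h => ?_⟩⟩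
  · have hx' : m'⁻¹ x ∈ St := off_mem (off_inv fun w => GU_off m'_GU) hx
    have h1 := m'_le _ hx'
    have h2 : m' (m'⁻¹ x) = x := m'.apply_symm_apply x
    rw [h2] at h1
    exact h1.trans h
  · have hx' : m'⁻¹ x ∈ St := off_mem (off_inv fun w => GU_off m'_GU) hx
    have h2 : m' (m'⁻¹ x) = x := m'.apply_symm_apply x
    have h' : 7 / 2 - 1 / 4 ≤ ps x := h
    change -1 - ε ≤ ps (m'⁻¹ x)
    by_contra hc
    rw [not_le] at hc
    have h3 := m'_low _ hx' (by linarith)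
    rw [h2] at h3
    linarith

private theorem loc {g : Equiv.Perm P2 × Equiv.Perm P2} (hg : g ∈ HH) (J : LineGrp.Blk)
    (h1 : -2 ≤ J.1.1) (h2 : J.1.2 ≤ 17 / 4) : (g.2)⁻¹ * ph0 g ∈ GS.NG J := by
  refine ⟨1 / 8, by norm_num, fun z hz a b => ?_⟩
  have a' : J.1.1 - 1 / 8 ≤ ps z := a
  have b' : ps z ≤ J.1.2 + 1 / 8 := b
  have h3 := hh_loc g hg z hz (by linarith) (by linarith)
  rw [Equiv.Perm.mul_apply, ← h3, Equiv.Perm.one_apply]
  exact g.2.symm_apply_apply z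

private theorem admG_of {J J' : LineGrp.Blk} {g : Equiv.Perm P2} (h : GS.Adm J g J') :
    GS.AdmG J g J' := ⟨g, h, 1, one_pos, fun _ _ _ _ => rfl⟩

/-- objects of the first functor -/
private noncomputable def f1 (x : S3) : LineGrp.Blk := jk (fo x)

/-- twist of the first functor -/
private noncomputable def c1 (x : S3) : Equiv.Perm P2 := (fc x).2

private theorem adm1 {x y : S3} {g : Equiv.Perm P2 × Equiv.Perm P2} (h : (susp HH).Adm x g y) :
    GS.AdmG (f1 x) ((c1 y)⁻¹ * (MonoidHom.snd (Equiv.Perm P2) (Equiv.Perm P2)) g * c1 x) (f1 y) :=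
  adm_of_lft (kc_adm (th0_adm h)).1.1 (kc_adm (th0_adm h)).2

private theorem n1 {x : S3} {n : Equiv.Perm P2 × Equiv.Perm P2} (h : n ∈ (susp HH).N x) :
    (c1 x)⁻¹ * (MonoidHom.snd (Equiv.Perm P2) (Equiv.Perm P2)) n * c1 x ∈ GS.NG (f1 x) :=
  kr_N (th0_N h)

private noncomputable def F1 : (susp HH).Obj ⥤ GS.CG.Obj :=
  twFun2 (A := susp HH) (A' := GS.CG) f1 (MonoidHom.snd (Equiv.Perm P2) (Equiv.Perm P2)) c1
    (fun h => adm1 h) (fun h => n1 h)

private theorem F1_eq : th0 ⋙ krG = F1 := by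
  refine CategoryTheory.Functor.hext (fun x => rfl) (fun x y u => heq_of_eq ?_)
  induction u using ActCat.ind with
  | h g hg => rfl

/-- objects of the third functor -/
private noncomputable def f3 : S3 → LineGrp.Blk
  | S3.a => Jg
  | S3.b => Jt
  | S3.t => Jt

/-- twist of the third functor -/
private noncomputable def c3 : S3 → Equiv.Perm P2
  | S3.a => 1
  | S3.b => m'
  | S3.t => 1

private theorem one_conj (g : Equiv.Perm P2) : (1 : Equiv.Perm P2)⁻¹ * g * 1 = g := by group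

private theorem adm3 {x y : S3} {g : Equiv.Perm P2 × Equiv.Perm P2} (h : (susp HH).Adm x g y) :
    GS.AdmG (f3 x) ((c3 y)⁻¹ * (MonoidHom.snd (Equiv.Perm P2) (Equiv.Perm P2)) g * c3 x) (f3 y) := by
  obtain ⟨h0, hg⟩ := h
  have hL : g ∈ Lft := (HH_le hg).1
  have hgt : GS.AdmG Jg g.2 Jt := adm_of_lft hL (by
    have h1 := (hh_padm_g g hg).mul hL.2.2.1 gt_padm
    rwa [one_mul] at h1)
  have htt : GS.AdmG Jt g.2 Jt := adm_of_lft hL (hh_padm_t g hg)
  rcases h0 with rfl | rfl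
  · cases x
    · change GS.AdmG Jg ((1 : Equiv.Perm P2)⁻¹ * g.2 * 1) Jg
      rw [one_conj]
      exact adm_of_lft hL (hh_padm_g g hg)
    · change GS.AdmG Jt (m'⁻¹ * g.2 * m') Jt
      exact GS.CG.nAdm (conj_Jt hg)
    · change GS.AdmG Jt ((1 : Equiv.Perm P2)⁻¹ * g.2 * 1) Jt
      rw [one_conj]
      exact htt
  · cases x
    · change GS.AdmG Jg ((1 : Equiv.Perm P2)⁻¹ * g.2 * 1) Jt
      rw [one_conj]
      exact hgt
    · change GS.AdmG Jt ((1 : Equiv.Perm P2)⁻¹ * g.2 * m') Jt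
      rw [inv_one, one_mul]
      exact GS.CG.mul (admG_of m'_adm) htt
    · change GS.AdmG Jt ((1 : Equiv.Perm P2)⁻¹ * g.2 * 1) Jt
      rw [one_conj]
      exact htt

private theorem n3 {x : S3} {n : Equiv.Perm P2 × Equiv.Perm P2} (h : n ∈ (susp HH).N x) :
    (c3 x)⁻¹ * (MonoidHom.snd (Equiv.Perm P2) (Equiv.Perm P2)) n * c3 x ∈ GS.NG (f3 x) := by
  cases x
  · change (1 : Equiv.Perm P2)⁻¹ * n.2 * 1 ∈ GS.NG Jg
    rw [one_conj]
    exact near_Jg h
  · exact conj_Jt h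
  · have hn : n ∈ (⊥ : Subgroup (Equiv.Perm P2 × Equiv.Perm P2)) := h
    rw [Subgroup.mem_bot] at hn
    subst hn
    change (1 : Equiv.Perm P2)⁻¹ * 1 * 1 ∈ GS.NG Jt
    rw [one_conj]
    exact (GS.NG _).one_mem

private noncomputable def F3 : (susp HH).Obj ⥤ GS.CG.Obj :=
  twFun2 (A := susp HH) (A' := GS.CG) f3 (MonoidHom.snd (Equiv.Perm P2) (Equiv.Perm P2)) c3
    (fun h => adm3 h) (fun h => n3 h)

/-- objects of the second functor -/
private noncomputable def f2 : S3 → LineGrp.Blk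
  | S3.a => Jg
  | S3.b => Jb
  | S3.t => Jt

/-- trivial twist -/
private noncomputable def c2 : S3 → Equiv.Perm P2 := fun _ => 1

private theorem adm2' {x y : S3} {g : Equiv.Perm P2} (h0 : x = y ∨ y = S3.t) (hg : g ∈ GU Db) :
    GS.Adm (f2 x) g (f2 y) := by
  have e : ∀ J : LineGrp.Blk, GS.Adm J 1 Jt → GS.Adm J g Jt := fun J hJ => by
    have := hJ.mul GS (db_t g hg)
    rwa [mul_one] at this
  rcases h0 with rfl | rfl
  · cases x
    · exact GS.R_adm (db_R hg)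
    · exact GS.L_adm (db_L hg)
    · exact db_t g hg
  · cases x
    · exact e Jg jgt
    · exact e Jb jbt
    · exact db_t g hg

private theorem adm2 {x y : S3} {g : Equiv.Perm P2 × Equiv.Perm P2} (h : (susp HH).Adm x g y) :
    GS.AdmG (f2 x) ((c2 y)⁻¹ * ph0 g * c2 x) (f2 y) := by
  change GS.AdmG (f2 x) ((1 : Equiv.Perm P2)⁻¹ * ph0 g * 1) (f2 y)
  rw [one_conj]
  exact admG_of (adm2' h.1 (ph0_mem g h.2))

private theorem n2 {x : S3} {n : Equiv.Perm P2 × Equiv.Perm P2} (h : n ∈ (susp HH).N x) :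
    (c2 x)⁻¹ * ph0 n * c2 x ∈ GS.NG (f2 x) := by
  change (1 : Equiv.Perm P2)⁻¹ * ph0 n * 1 ∈ GS.NG (f2 x)
  rw [one_conj]
  have key : ∀ (J : LineGrp.Blk) (g : Equiv.Perm P2), g ∈ GS.LR J → g ∈ GS.NG J := by
    rintro J g ⟨a, ⟨haΓ, ε, hε, h1⟩, b, ⟨hbΓ, ε', hε', h2⟩, rfl⟩
    refine ⟨min ε ε', lt_min hε hε', fun x hx hp hp' => ?_⟩
    rw [Equiv.Perm.mul_apply, h2 x hx (by linarith [min_le_right ε ε']),
      h1 x hx (by linarith [min_le_left ε ε']), Equiv.Perm.one_apply]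
  cases x
  · exact key _ _ (GS.R_le_LR Jg (db_R (ph0_mem n h)))
  · exact key _ _ (GS.L_le_LR Jb (db_L (ph0_mem n h)))
  · have hn : n ∈ (⊥ : Subgroup (Equiv.Perm P2 × Equiv.Perm P2)) := h
    rw [Subgroup.mem_bot] at hn
    subst hn
    rw [map_one]
    exact (GS.NG _).one_mem

private noncomputable def F2 : (susp HH).Obj ⥤ GS.CG.Obj :=
  twFun2 (A := susp HH) (A' := GS.CG) f2 ph0 c2 (fun h => adm2 h) (fun h => n2 h)

private theorem F2_eq : spM ⋙ susS ⋙ GS.cvcg = F2 := by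
  refine CategoryTheory.Functor.hext (fun x => ?_) (fun x y u => ?_)
  · obtain ⟨x⟩ := x
    cases x <;> rfl
  · obtain ⟨x⟩ := x
    obtain ⟨y⟩ := y
    induction u using ActCat.ind with
    | h g hg =>
      have hone : ∀ J : LineGrp.Blk,
          (ph0 g)⁻¹ * ((1 : Equiv.Perm P2)⁻¹ * ph0 g * 1) ∈ GS.NG J := fun J => by
        rw [one_conj, inv_mul_cancel]
        exact (GS.NG J).one_mem
      cases x <;> cases y <;> refine heq_of_eq ?_ <;>
        exact (cl_eq (A := GS.CG)).2 (hone _)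

private theorem nat13 (n : ℕ) : HCmap F1 n = HCmap F3 n := by
  refine tw_nat (A := susp HH) (A' := GS.CG) f1 f3 _ _ c1 c3 _ _ _ _ (fun _ => 1) ?_ ?_ n
  · intro x
    cases x
    · exact GS.CG.one Jg
    · exact admG_of jgt
    · exact GS.CG.one Jt
  · intro x y g h
    obtain ⟨h0, hg⟩ := h
    have e0 : ∀ u : Equiv.Perm P2, (u * 1)⁻¹ * (1 * u) = 1 := fun u => by group
    rcases h0 with rfl | rfl
    · cases x
      · change (((1 : Equiv.Perm P2)⁻¹ * g.2 * 1) * 1)⁻¹ * (1 * ((1 : Equiv.Perm P2)⁻¹ * g.2 * 1)) ∈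
          GS.NG Jg
        rw [e0]
        exact (GS.NG _).one_mem
      · change ((m'⁻¹ * g.2 * m') * 1)⁻¹ * (1 * (mt⁻¹ * g.2 * mt)) ∈ GS.NG Jg
        rw [mt_conj hg, mul_one, one_mul]
        exact (GS.NG Jg).mul_mem ((GS.NG Jg).inv_mem (conj_Jg hg)) (near_Jg hg)
      · change (((1 : Equiv.Perm P2)⁻¹ * g.2 * 1) * 1)⁻¹ * (1 * ((1 : Equiv.Perm P2)⁻¹ * g.2 * 1)) ∈
          GS.NG Jt
        rw [e0]
        exact (GS.NG _).one_mem
    · cases x
      · change (((1 : Equiv.Perm P2)⁻¹ * g.2 * 1) * 1)⁻¹ * (1 * ((1 : Equiv.Perm P2)⁻¹ * g.2 * 1)) ∈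
          GS.NG Jg
        rw [e0]
        exact (GS.NG _).one_mem
      · change (((1 : Equiv.Perm P2)⁻¹ * g.2 * m') * 1)⁻¹ *
          (1 * ((1 : Equiv.Perm P2)⁻¹ * g.2 * mt)) ∈ GS.NG Jg
        have e1 : (((1 : Equiv.Perm P2)⁻¹ * g.2 * m') * 1)⁻¹ *
          (1 * ((1 : Equiv.Perm P2)⁻¹ * g.2 * mt)) = m'⁻¹ * mt := by group
        rw [e1]
        exact m'_mt_Jg
      · change (((1 : Equiv.Perm P2)⁻¹ * g.2 * 1) * 1)⁻¹ * (1 * ((1 : Equiv.Perm P2)⁻¹ * g.2 * 1)) ∈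
          GS.NG Jt
        rw [e0]
        exact (GS.NG _).one_mem

/-- components of the second natural transformation -/
private noncomputable def g23 : S3 → Equiv.Perm P2
  | S3.a => 1
  | S3.b => m'⁻¹
  | S3.t => 1

private theorem nat23 (n : ℕ) : HCmap F2 n = HCmap F3 n := by
  refine tw_nat (A := susp HH) (A' := GS.CG) f2 f3 _ _ c2 c3 _ _ _ _ g23 ?_ ?_ n
  · intro x
    cases x
    · exact GS.CG.one Jg
    · exact admG_of m'_inv_adm
    · exact GS.CG.one Jt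
  · intro x y g h
    obtain ⟨h0, hg⟩ := h
    have lg : (g.2)⁻¹ * ph0 g ∈ GS.NG Jg := loc hg Jg (by
      change (-2 : ℝ) ≤ -1
      norm_num) (by
      change (-1 / 2 : ℝ) ≤ 17 / 4
      norm_num)
    have lb : (g.2)⁻¹ * ph0 g ∈ GS.NG Jb := loc hg Jb (by
      change (-2 : ℝ) ≤ 7 / 2
      norm_num) (le_refl (17 / 4 : ℝ))
    have ltt : (g.2)⁻¹ * ph0 g ∈ GS.NG Jt := loc hg Jt (by
      change (-2 : ℝ) ≤ -1
      norm_num) (le_refl (17 / 4 : ℝ))
    have e0 : ∀ u v : Equiv.Perm P2, ((1 : Equiv.Perm P2)⁻¹ * u * 1 * 1)⁻¹ *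
      (1 * ((1 : Equiv.Perm P2)⁻¹ * v * 1)) = u⁻¹ * v := fun u v => by group
    rcases h0 with rfl | rfl
    · cases x
      · change ((1 : Equiv.Perm P2)⁻¹ * g.2 * 1 * 1)⁻¹ *
          (1 * ((1 : Equiv.Perm P2)⁻¹ * ph0 g * 1)) ∈ GS.NG Jg
        rw [e0]
        exact lg
      · change (m'⁻¹ * g.2 * m' * m'⁻¹)⁻¹ *
          (m'⁻¹ * ((1 : Equiv.Perm P2)⁻¹ * ph0 g * 1)) ∈ GS.NG Jb
        have e1 : (m'⁻¹ * g.2 * m' * m'⁻¹)⁻¹ *
          (m'⁻¹ * ((1 : Equiv.Perm P2)⁻¹ * ph0 g * 1)) = (g.2)⁻¹ * ph0 g := by group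
        rw [e1]
        exact lb
      · change ((1 : Equiv.Perm P2)⁻¹ * g.2 * 1 * 1)⁻¹ *
          (1 * ((1 : Equiv.Perm P2)⁻¹ * ph0 g * 1)) ∈ GS.NG Jt
        rw [e0]
        exact ltt
    · cases x
      · change ((1 : Equiv.Perm P2)⁻¹ * g.2 * 1 * 1)⁻¹ *
          (1 * ((1 : Equiv.Perm P2)⁻¹ * ph0 g * 1)) ∈ GS.NG Jg
        rw [e0]
        exact lg
      · change ((1 : Equiv.Perm P2)⁻¹ * g.2 * m' * m'⁻¹)⁻¹ *
          (1 * ((1 : Equiv.Perm P2)⁻¹ * ph0 g * 1)) ∈ GS.NG Jb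
        have e1 : ((1 : Equiv.Perm P2)⁻¹ * g.2 * m' * m'⁻¹)⁻¹ *
          (1 * ((1 : Equiv.Perm P2)⁻¹ * ph0 g * 1)) = (g.2)⁻¹ * ph0 g := by group
        rw [e1]
        exact lb
      · change ((1 : Equiv.Perm P2)⁻¹ * g.2 * 1 * 1)⁻¹ *
          (1 * ((1 : Equiv.Perm P2)⁻¹ * ph0 g * 1)) ∈ GS.NG Jt
        rw [e0]
        exact ltt

theorem th_eq (n : ℕ) (x : HC (susp HH).Obj n) :
    HCmap krG n (HCmap th0 n x) = HCmap GS.cvcg n (HCmap susS n (HCmap spM n x)) := by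
  rw [← HCmap_comp, F1_eq, nat13, ← nat23, ← F2_eq, HCmap_comp, HCmap_comp]

end C715
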