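import Pool.Agent.Work.MP_c71557_gt.F.Kc
import Pool.Agent.Work.MP_c71557_gt.F.Nat
import Pool.Agent.Work.MP_c71557_gt.D.FragLft
import Pool.Agent.Work.MP_c71557_gt.D.Split
import Pool.Agent.Work.MP_c71557_gt.V.Einj

set_option autoImplicit false
set_option linter.unusedVariables false

/-!
# MP_c71557_gt, module F/Step: the induction step (M)

`sus_zero`: hypothesis `hE`: `H_{n+1} (E Q0) → H_{n+1} (Gc)` injective.  CLAIM: for all
`x ∈ H_{n+1} (susp (GU Db))` (here `n = k + 1`), `susS_* x = 0`.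
PROOF.  By `spM_hiso` write `x = spM_* x'`, `x' ∈ H_{n+1} (susp HH)`.  `kc_surj` (`mh_not`): there is
`y ∈ H_{n+1} (kc)` with `kcPr_* y = th0_* x'` (`n + 1 = k + 2`).  Let `z = kcE_* y ∈ H_{n+1} (CE)`,
`e = ceG_* z ∈ H_{n+1} (sg EE)`, `e1 = fst_* e ∈ H_{n+1} (sg (E Q0))`, `e2` its image in `H_{n+1} (sg Gc)`.  By `GU_Gc_hiso`
(`Dd` convex open nonempty) and `hh_fst_hiso` there is `u ∈ H_{n+1} (sg HH)` whose image in
`H_{n+1} (sg Gc)` under `fst` is `e2`.  Let `i : sg HH → sg EE` be the inclusion (`sgMap (MonoidHom.id _)`).  The images of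
`i_* u` and `e` in `H_{n+1} (sg (E Q0))` have the same image in `H_{n+1} (sg Gc)`, so they are equal by `hE`, so
`i_* u = e` (`fst_hiso`).  `hhE ⋙ ceG = i` (same data), so `ceG_* (hhE_* u) = ceG_* z`, `hhE_* u = z`
(`ceG_hiso`).  `devF_* z = devF_* (hhE_* u) = 0` (`hhE_zero`).  On the other hand
`devF_* z = devF_* (kcE_* y) = krG_* (kcPr_* y) = krG_* (th0_* x') = cvcg_* (susS_* x)` (`kc_sq`, `th_eq`).
`cvcg_hiso` (`GS_split`): `susS_* x = 0`.
`step`: so the kernel of `susS_*` in degree `n + 1` is everything; by `sus_cnt` (`GS_L_hiso` for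
`U = Db`, `l = Jb.1.1 = 7/2`; the hypothesis on `H_i (L l)`, `1 ≤ i < n`, from `GS_L_Gc`) the space
`H_{n+1} (susp (GU Db))` is countable, hence so is `H_n (sg (GU Db))` (`susp_H`), and `H_n (sg Gc)` (`GU_Gc_hiso`).
-/

namespace C715

open CategoryTheory ActCat

private theorem Db_open' : IsOpen Db := Metric.isOpen_ball

private theorem Db_convex' : Convex ℝ Db := convex_ball _ _

private theorem Db_nonempty' : Db.Nonempty := ⟨_, Metric.mem_ball_self (by norm_num)⟩

private theorem sq1 : sgIncl HH_le ⋙ (sgMap (MonoidHom.fst (Equiv.Perm P2) (Equiv.Perm P2)) EE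
      (E Q0.set) (fun p hp => hp.2) ⋙ sgIncl (E_le_Gc Q0.set)) =
    sgMap (MonoidHom.fst (Equiv.Perm P2) (Equiv.Perm P2)) HH (GU Dd) (fun p hp => hp.2) ⋙
      sgIncl (GU_le Dd) := by
  refine CategoryTheory.Functor.hext (fun x => rfl) fun x y f => ?_
  induction f using ActCat.ind with
  | h g hg => rfl

private theorem sq2 : hhE ⋙ ceG = sgIncl HH_le := by
  refine CategoryTheory.Functor.hext (fun x => rfl) fun x y f => ?_
  induction f using ActCat.ind with
  | h g hg => rfl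

theorem sus_zero (k : ℕ)
    (hE : Function.Injective (HCmap (sgIncl (E_le_Gc Q0.set)) (k + 2)))
    (x : HC (susp (GU Db)).Obj (k + 2)) : HCmap susS (k + 2) x = 0 := by
  obtain ⟨x', rfl⟩ := (spM_hiso (k + 2)).2 x
  obtain ⟨y, hy⟩ := kc_surj HH mh mh_comm mh_not k (HCmap th0 (k + 2) x')
  have hDd : HIso (sgMap (MonoidHom.fst (Equiv.Perm P2) (Equiv.Perm P2)) HH (GU Dd)
      (fun p hp => hp.2) ⋙ sgIncl (GU_le Dd)) :=
    hh_fst_hiso.comp (GU_Gc_hiso Dd Dd_open Dd_convex (Db_nonempty'.image _))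
  obtain ⟨u, hu⟩ := (hDd (k + 2)).2 (HCmap (sgMap (MonoidHom.fst (Equiv.Perm P2) (Equiv.Perm P2)) EE
      (E Q0.set) (fun p hp => hp.2) ⋙ sgIncl (E_le_Gc Q0.set)) (k + 2)
      (HCmap ceG (k + 2) (HCmap kcE (k + 2) y)))
  rw [← sq1, HCmap_comp, HCmap_comp, HCmap_comp] at hu
  have h1 : HCmap (sgIncl HH_le) (k + 2) u = HCmap ceG (k + 2) (HCmap kcE (k + 2) y) :=
    (fst_hiso (k + 2)).1 (hE hu)
  rw [← sq2, HCmap_comp] at h1
  have h2 : HCmap hhE (k + 2) u = HCmap kcE (k + 2) y := (ceG_hiso (k + 2)).1 h1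
  have h3 : HCmap devF (k + 2) (HCmap kcE (k + 2) y) = 0 := by
    rw [← h2]
    exact hhE_zero (k + 1) u
  rw [kc_sq, hy, th_eq] at h3
  exact (GS.cvcg_hiso GS_split (k + 2)).1 (h3.trans (map_zero _).symm)

theorem step (k : ℕ) (hE : Function.Injective (HCmap (sgIncl (E_le_Gc Q0.set)) (k + 2)))
    (ih : ∀ i, 1 ≤ i → i < k + 1 → Countable (HC (sg Gc).Obj i)) :
    Countable (HC (sg Gc).Obj (k + 1)) := by
  have h1 : HIso (sgIncl db_L) := GS_L_hiso Db Db_open' Db_convex' Db_nonempty' Jb.1.1 db_L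
    (fun z hz => by
      obtain ⟨a1, a2, a3, a4⟩ := Db_bd z hz
      have hz0 : 0 < z.2 := by linarith
      refine ⟨by linarith, ?_⟩
      unfold ps at a2
      rw [div_lt_iff₀ hz0] at a2
      have : Jb.1.1 = 7 / 2 := rfl
      rw [this]
      linarith)
  have h2 := GS.sus_cnt (GU Db) Jg Jb Jt jgt jbt db_R db_L db_t h1 (k + 1) (fun i hi hi' => by
    have := ih i hi hi'
    exact (GS_L_Gc Jb.1.1 i).some.injective.countable)
  have h3 : Countable (HC (susp (GU Db)).Obj (k + 2)) := by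
    have h4 : Function.Injective (fun x : HC (susp (GU Db)).Obj (k + 2) =>
        (⟨x, sus_zero k hE x⟩ : LinearMap.ker (HCmap (GS.sus (GU Db) Jg Jb Jt jgt jbt db_R db_L
          db_t) (k + 1 + 1)))) := fun x y h => congrArg Subtype.val h
    exact h4.countable
  have h5 : Countable (HC (sg (GU Db)).Obj (k + 1)) :=
    ((susp_H (GU Db)).2 k).some.symm.injective.countable
  exact (GU_Gc_hiso Db Db_open' Db_convex' Db_nonempty' (k + 1)).2.countable

/-- `H_3 (Gc)` is countable -/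
theorem main_cnt (A0 : Set P2 → Subgroup (Equiv.Perm P2)) (h : IsWind A0)
    (hloc : ∀ n, 1 ≤ n → n ≤ 5 → Subsingleton (HC (V0 A0 h).Obj n)) :
    Countable (HC (sg Gc).Obj 3) := by
  have hE := E_iso A0 h hloc Q0
  have h1 : Countable (HC (sg Gc).Obj 1) := step 0 (hE 2 (by norm_num)).1 (fun i hi hi' => by omega)
  have h2 : Countable (HC (sg Gc).Obj 2) := step 1 (hE 3 (by norm_num)).1 (fun i hi hi' => by
    obtain rfl : i = 1 := by omega
    exact h1)
  exact step 2 (hE 4 (by norm_num)).1 (fun i hi hi' => by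
    obtain rfl | rfl : i = 1 ∨ i = 2 := by omega
    · exact h1
    · exact h2)

end C715
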